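import Mathlib

/-!
# Four functions theorem (Ahlswede-Daykin) for `lmarginal` over `ℝ`, FKG and Holley
-/

set_option autoImplicit false

namespace HMT

open MeasureTheory Set
open scoped ENNReal

theorem ff_alg {x y A B : ℝ≥0∞} (h1 : x ≤ A) (h2 : y ≤ A) (h3 : x * y ≤ A * B) :
    x + y ≤ A + B := by
  by_cases hA : A = ∞
  · rw [hA]; simp
  by_cases hB : B = ∞
  · rw [hB]; simp
  have hx : x ≠ ∞ := ne_top_of_le_ne_top hA h1
  have hy : y ≠ ∞ := ne_top_of_le_ne_top hA h2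
  lift x to NNReal using hx
  lift y to NNReal using hy
  lift A to NNReal using hA
  lift B to NNReal using hB
  norm_cast at *
  by_cases h0 : A = 0
  · subst h0
    rw [nonpos_iff_eq_zero.1 h1, nonpos_iff_eq_zero.1 h2]
    simp
  have hpos : (0 : ℝ) < A := by positivity
  have k1 : (x : ℝ) ≤ A := by exact_mod_cast h1
  have k2 : (y : ℝ) ≤ A := by exact_mod_cast h2
  have k3 : (x : ℝ) * y ≤ A * B := by exact_mod_cast h3
  have k4 : (x : ℝ) + y ≤ A + B := by
    have := mul_nonneg (sub_nonneg.2 k1) (sub_nonneg.2 k2)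
    nlinarith
  exact_mod_cast k4

/-- one-dimensional four functions theorem -/
theorem ff_one {φ₁ φ₂ φ₃ φ₄ : ℝ → ℝ≥0∞} (m1 : Measurable φ₁) (m2 : Measurable φ₂)
    (m3 : Measurable φ₃) (m4 : Measurable φ₄)
    (h : ∀ a b, φ₁ a * φ₂ b ≤ φ₃ (a ⊔ b) * φ₄ (a ⊓ b)) :
    (∫⁻ a, φ₁ a) * (∫⁻ a, φ₂ a) ≤ (∫⁻ a, φ₃ a) * (∫⁻ a, φ₄ a) := by
  have key : ∀ a b : ℝ, φ₁ a * φ₂ b + φ₁ b * φ₂ a ≤ φ₃ a * φ₄ b + φ₃ b * φ₄ a := by
    have main : ∀ a b : ℝ, b ≤ a → φ₁ a * φ₂ b + φ₁ b * φ₂ a ≤ φ₃ a * φ₄ b + φ₃ b * φ₄ a := by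
      intro a b hab
      have h1 := h a b
      have h2 := h b a
      have h3 := h a a
      have h4 := h b b
      rw [sup_of_le_left hab, inf_of_le_right hab] at h1
      rw [sup_of_le_right hab, inf_of_le_left hab] at h2
      rw [sup_idem, inf_idem] at h3 h4
      refine ff_alg h1 h2 ?_
      calc φ₁ a * φ₂ b * (φ₁ b * φ₂ a) = (φ₁ a * φ₂ a) * (φ₁ b * φ₂ b) := by ring
        _ ≤ (φ₃ a * φ₄ a) * (φ₃ b * φ₄ b) := mul_le_mul' h3 h4
        _ = _ := by ring
    intro a b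
    rcases le_total b a with hab | hab
    · exact main a b hab
    · have := main b a hab
      rw [add_comm (φ₁ a * φ₂ b), add_comm (φ₃ a * φ₄ b)]
      exact this
  have dbl : ∀ {f g : ℝ → ℝ≥0∞}, Measurable f → Measurable g →
      ∫⁻ a, ∫⁻ b, (f a * g b + f b * g a) = 2 * ((∫⁻ a, f a) * ∫⁻ a, g a) := by
    intro f g mf mg
    have e : ∀ a, ∫⁻ b, (f a * g b + f b * g a) = f a * (∫⁻ b, g b) + (∫⁻ b, f b) * g a := by
      intro a
      rw [lintegral_add_left (mg.const_mul _), lintegral_const_mul _ mg, lintegral_mul_const _ mf]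
    simp only [e]
    rw [lintegral_add_left (mf.mul_const _), lintegral_mul_const _ mf, lintegral_const_mul _ mg]
    ring
  have h2 : 2 * ((∫⁻ a, φ₁ a) * ∫⁻ a, φ₂ a) ≤ 2 * ((∫⁻ a, φ₃ a) * ∫⁻ a, φ₄ a) := by
    rw [← dbl m1 m2, ← dbl m3 m4]
    exact lintegral_mono fun a => lintegral_mono fun b => key a b
  exact (ENNReal.mul_le_mul_iff_right (by norm_num) (by norm_num)).1 h2

variable {G : Type*} [DecidableEq G]

/-- **Four functions theorem** for marginals. -/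
theorem ff (s : Finset G) : ∀ {f₁ f₂ f₃ f₄ : (G → ℝ) → ℝ≥0∞}, Measurable f₁ → Measurable f₂ →
    Measurable f₃ → Measurable f₄ → (∀ x y, f₁ x * f₂ y ≤ f₃ (x ⊔ y) * f₄ (x ⊓ y)) →
    ∀ x y, (∫⋯∫⁻_s, f₁) x * (∫⋯∫⁻_s, f₂) y ≤ (∫⋯∫⁻_s, f₃) (x ⊔ y) * (∫⋯∫⁻_s, f₄) (x ⊓ y) := by
  classical
  induction s using Finset.induction_on with
  | empty =>
    intro f₁ f₂ f₃ f₄ _ _ _ _ h x y
    simpa only [lmarginal_empty] using h x y
  | insert i s hi ih =>
    intro f₁ f₂ f₃ f₄ m1 m2 m3 m4 h x y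
    have IH := ih m1 m2 m3 m4 h
    rw [lmarginal_insert _ m1 hi, lmarginal_insert _ m2 hi, lmarginal_insert _ m3 hi,
      lmarginal_insert _ m4 hi]
    have mm : ∀ {f : (G → ℝ) → ℝ≥0∞}, Measurable f → ∀ z : G → ℝ,
        Measurable fun a : ℝ => (∫⋯∫⁻_s, f) (Function.update z i a) :=
      fun mf z => (mf.lmarginal _).comp (measurable_update z)
    refine ff_one (mm m1 x) (mm m2 y) (mm m3 (x ⊔ y)) (mm m4 (x ⊓ y)) fun a b => ?_
    have e1 : Function.update x i a ⊔ Function.update y i b = Function.update (x ⊔ y) i (a ⊔ b) := by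
      ext j
      by_cases hj : j = i
      · subst hj; simp
      · simp [hj]
    have e2 : Function.update x i a ⊓ Function.update y i b = Function.update (x ⊓ y) i (a ⊓ b) := by
      ext j
      by_cases hj : j = i
      · subst hj; simp
      · simp [hj]
    have := IH (Function.update x i a) (Function.update y i b)
    rwa [e1, e2] at this

/-- log-supermodular weight -/
def LSM (w : (G → ℝ) → ℝ≥0∞) : Prop := ∀ x y, w x * w y ≤ w (x ⊔ y) * w (x ⊓ y)

/-- increasing event -/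
def Inc (A : Set (G → ℝ)) : Prop := ∀ x ∈ A, ∀ y, x ≤ y → y ∈ A

omit [DecidableEq G] in
theorem ind_mul_le {w : (G → ℝ) → ℝ≥0∞} (hw : LSM w) {A B : Set (G → ℝ)} (hA : Inc A) (hB : Inc B)
    (x y : G → ℝ) : A.indicator 1 x * w x * (B.indicator 1 y * w y) ≤
      (A ∩ B).indicator 1 (x ⊔ y) * w (x ⊔ y) * w (x ⊓ y) := by
  by_cases hx : x ∈ A
  · by_cases hy : y ∈ B
    · have hxy : x ⊔ y ∈ A ∩ B := ⟨hA x hx _ le_sup_left, hB y hy _ le_sup_right⟩
      rw [indicator_of_mem hx, indicator_of_mem hy, indicator_of_mem hxy]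
      simpa only [Pi.one_apply, one_mul] using hw x y
    · rw [indicator_of_notMem hy]; simp
  · rw [indicator_of_notMem hx]; simp

/-- **FKG** for marginals at a boundary condition. -/
theorem fkg {w : (G → ℝ) → ℝ≥0∞} (mw : Measurable w) (hw : LSM w) {A B : Set (G → ℝ)}
    (mA : MeasurableSet A) (mB : MeasurableSet B) (hA : Inc A) (hB : Inc B) (s : Finset G)
    (ξ : G → ℝ) :
    (∫⋯∫⁻_s, fun f => A.indicator 1 f * w f) ξ * (∫⋯∫⁻_s, fun f => B.indicator 1 f * w f) ξ ≤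
      (∫⋯∫⁻_s, fun f => (A ∩ B).indicator 1 f * w f) ξ * (∫⋯∫⁻_s, w) ξ := by
  have mi : ∀ {C : Set (G → ℝ)}, MeasurableSet C → Measurable fun f => C.indicator 1 f * w f :=
    fun hC => (measurable_one.indicator hC).mul mw
  have := ff s (mi mA) (mi mB) (mi (mA.inter mB)) mw (ind_mul_le hw hA hB) ξ ξ
  simpa only [sup_idem, inf_idem] using this

/-- **Holley**: increasing events are more likely at a larger boundary condition. -/
theorem holley {w : (G → ℝ) → ℝ≥0∞} (mw : Measurable w) (hw : LSM w) {A : Set (G → ℝ)}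
    (mA : MeasurableSet A) (hA : Inc A) (s : Finset G) {ξ η : G → ℝ} (h : ξ ≤ η) :
    (∫⋯∫⁻_s, fun f => A.indicator 1 f * w f) ξ * (∫⋯∫⁻_s, w) η ≤
      (∫⋯∫⁻_s, fun f => A.indicator 1 f * w f) η * (∫⋯∫⁻_s, w) ξ := by
  have mi : Measurable fun f => A.indicator 1 f * w f := (measurable_one.indicator mA).mul mw
  have := ff s mi mw mi mw (fun x y => by
    have := ind_mul_le hw hA (B := univ) (fun _ _ _ _ => mem_univ _) x y
    simpa only [indicator_univ, Pi.one_apply, one_mul, inter_univ] using this) ξ η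
  rwa [sup_of_le_right h, inf_of_le_left h] at this

end HMT
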