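import Pool.Agent.Lib_helper14.HMT.Wind

/-!
# Torus layer: lifts, duality, uniqueness of blocking sets
-/

set_option autoImplicit false

namespace HMT

open Finset Relation

variable {M : ℕ} [NeZero M]

/-- every closed walk inside `U` has winding `0` -/
def NoWind (U : Set (ZMod M × ZMod M)) : Prop := ∀ u, Wind U u → u = 0

/-- two vertices are connected inside `U` -/
def Lk (U : Set (ZMod M × ZMod M)) (v w : ZMod M × ZMod M) : Prop :=
  ∃ p q, pr M p = v ∧ pr M q = w ∧ Conn U p q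

omit [NeZero M] in
theorem Lk.from {U : Set (ZMod M × ZMod M)} {v w : ZMod M × ZMod M} (h : Lk U v w) {p : ℤ × ℤ}
    (hp : pr M p = v) : ∃ q, pr M q = w ∧ Conn U p q := by
  obtain ⟨p', q', h1, h2, h3⟩ := h
  obtain ⟨u, hu⟩ := pr_eq (h1.trans hp.symm)
  refine ⟨q' + (M * u.1, M * u.2), by rw [pr_shift, h2], ?_⟩
  rw [hu]
  exact h3.shift u

/-- a lift of a vertex -/
def lf (v : ZMod M × ZMod M) : ℤ × ℤ := ((v.1.val : ℤ), (v.2.val : ℤ))

theorem pr_lf (v : ZMod M × ZMod M) : pr M (lf v) = v := by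
  ext <;> simp [pr, lf]

/-- the equivalence relation -/
def setoid (U : Set (ZMod M × ZMod M)) : Setoid (ZMod M × ZMod M) where
  r := Lk U
  iseqv := {
    refl := fun v => ⟨lf v, lf v, pr_lf v, pr_lf v, ReflTransGen.refl⟩
    symm := fun ⟨p, q, h1, h2, h3⟩ => ⟨q, p, h2, h1, h3.symm⟩
    trans := fun {v w x} h h' => by
      obtain ⟨p, q, h1, h2, h3⟩ := h
      obtain ⟨r, h4, h5⟩ := h'.from h2
      exact ⟨p, r, h1, h4, h3.trans h5⟩ }

/-- distinct lifts of one vertex in one cluster give a winding -/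
theorem NoWind.uniq {U : Set (ZMod M × ZMod M)} (hU : NoWind U) {q q' : ℤ × ℤ}
    (hq : pr M q ∈ U) (h : Conn U q q') (he : pr M q = pr M q') : q = q' := by
  obtain ⟨u, hu⟩ := pr_eq he
  rw [hu] at h
  have := hU u ⟨q, hq, h⟩
  rw [hu, this]
  simp

/-- **Lift** of a set without windings, with a bound for the size. -/
theorem lift {U : Set (ZMod M × ZMod M)} (hU : NoWind U) :
    ∃ φ : ZMod M × ZMod M → ℤ × ℤ, (∀ v, v ∈ U → pr M (φ v) = v) ∧
      (∀ v, v ∈ U → v + e1 M ∈ U → φ (v + e1 M) = φ v + (1, 0)) ∧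
      (∀ v, v ∈ U → v + e2 M ∈ U → φ (v + e2 M) = φ v + (0, 1)) ∧
      ∀ v, v ∈ U → ∃ w, w ∈ U ∧ Conn U (lf w) (φ v) := by
  classical
  let r : ZMod M × ZMod M → ZMod M × ZMod M := fun v => (Quotient.mk (setoid U) v).out
  have hr : ∀ v, Lk U (r v) v := fun v => Quotient.exact (Quotient.out_eq (Quotient.mk (setoid U) v))
  have hex : ∀ v, ∃ q, pr M q = v ∧ Conn U (lf (r v)) q := fun v => (hr v).from (pr_lf _)
  choose φ h1 h2 using hex
  have hmem : ∀ v, v ∈ U → r v ∈ U := by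
    intro v hv
    have := (h2 v).symm.mem (by rw [h1]; exact hv)
    rwa [pr_lf] at this
  have step : ∀ v w, v ∈ U → w ∈ U → ∀ d : ℤ × ℤ, Adj (φ v) (φ v + d) → pr M (φ v + d) = w →
      φ w = φ v + d := by
    intro v w hv hw d hadj hpr
    have hc : Conn U (φ v) (φ v + d) :=
      ReflTransGen.single ⟨hadj, by rw [h1]; exact hv, by rw [hpr]; exact hw⟩
    have hrr : r v = r w := by
      have : Lk U v w := ⟨φ v, φ v + d, h1 v, hpr, hc⟩
      have e : Quotient.mk (setoid U) v = Quotient.mk (setoid U) w := Quotient.sound this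
      simp only [r, e]
    have hc2 : Conn U (φ w) (φ v + d) := by
      refine (h2 w).symm.trans ?_
      rw [← hrr]
      exact (h2 v).trans hc
    exact hU.uniq (by rw [h1]; exact hw) hc2 (by rw [h1, hpr])
  refine ⟨φ, fun v _ => h1 v, fun v hv hw => ?_, fun v hv hw => ?_, fun v hv => ⟨r v, hmem v hv, h2 v⟩⟩
  · exact step v _ hv hw (1, 0) (Or.inl rfl) (by rw [pr_e1, h1])
  · exact step v _ hv hw (0, 1) (Or.inr (Or.inr (Or.inl rfl))) (by rw [pr_e2, h1])

/-- the integer cochain pair attached to a set `V` whose complement has no windings: closed, with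
sums `M ^ 2, 0` and `0, M ^ 2`, and zero on all edges that do not touch `V` -/
theorem cochain {V : Set (ZMod M × ZMod M)} (hV : NoWind Vᶜ) :
    ∃ h k h' k' : ZMod M × ZMod M → ℤ, Closed h k ∧ Closed h' k' ∧
      (∀ v, v ∉ V → v + e1 M ∉ V → h v = 0 ∧ h' v = 0) ∧
      (∀ v, v ∉ V → v + e2 M ∉ V → k v = 0 ∧ k' v = 0) ∧
      ∑ v, h v = (M : ℤ) ^ 2 ∧ ∑ v, k v = 0 ∧ ∑ v, h' v = 0 ∧ ∑ v, k' v = (M : ℤ) ^ 2 := by
  obtain ⟨φ, _, h2, h3, _⟩ := lift hV
  have hc : ((Fintype.card (ZMod M × ZMod M) : ℕ) : ℤ) = (M : ℤ) ^ 2 := by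
    rw [Fintype.card_prod, ZMod.card]; push_cast; ring
  have z1 : ∀ (f : ZMod M × ZMod M → ℤ) c, ∑ v, (f (v + c) - f v) = 0 := by
    intro f c; rw [sum_sub_distrib, sum_shift, sub_self]
  refine ⟨fun v => 1 - ((φ (v + e1 M)).1 - (φ v).1), fun v => 0 - ((φ (v + e2 M)).1 - (φ v).1),
    fun v => 0 - ((φ (v + e1 M)).2 - (φ v).2), fun v => 1 - ((φ (v + e2 M)).2 - (φ v).2),
    fun v => ?_, fun v => ?_, fun v hv hw => ?_, fun v hv hw => ?_, ?_, ?_, ?_, ?_⟩
  · have c : v + e2 M + e1 M = v + e1 M + e2 M := by abel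
    simp only [c]; ring
  · have c : v + e2 M + e1 M = v + e1 M + e2 M := by abel
    simp only [c]; ring
  · beta_reduce; rw [h2 v hv hw]; simp
  · beta_reduce; rw [h3 v hv hw]; simp
  · rw [sum_sub_distrib, z1 (fun v => (φ v).1), sub_zero]; simp [← hc]
  · rw [sum_sub_distrib, z1 (fun v => (φ v).1), sub_zero]; simp
  · rw [sum_sub_distrib, z1 (fun v => (φ v).2), sub_zero]; simp
  · rw [sum_sub_distrib, z1 (fun v => (φ v).2), sub_zero]; simp [← hc]

/-- the four corners of a plaquette -/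
def InP (u w : ZMod M × ZMod M) : Prop := w = u ∨ w = u + e1 M ∨ w = u + e2 M ∨ w = u + e1 M + e2 M

/-- `*`-neighbours: two corners of one plaquette -/
def Star (v w : ZMod M × ZMod M) : Prop := ∃ u, InP u v ∧ InP u w

/-- `*`-connected inside `V` -/
def SConn (V : Set (ZMod M × ZMod M)) : ZMod M × ZMod M → ZMod M × ZMod M → Prop :=
  ReflTransGen fun a b => a ∈ V ∧ b ∈ V ∧ Star a b

/-- **Uniqueness**: two sets that no plaquette touches simultaneously are not both blocking. -/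
theorem unique {A B : Set (ZMod M × ZMod M)} (hAB : ∀ a ∈ A, ∀ b ∈ B, ¬ Star a b)
    (hA : NoWind Aᶜ) (hB : NoWind Bᶜ) : False := by
  obtain ⟨h, k, _, _, w1, _, a1, a2, s1, s2, _, _⟩ := cochain hA
  obtain ⟨_, _, h', k', _, w2, b1, b2, _, _, s3, s4⟩ := cochain hB
  have hz : cup h k h' k' = 0 := by
    refine sum_eq_zero fun v _ => ?_
    have key : ∀ x y : ℤ, (x ≠ 0 → y ≠ 0 → False) → x * y = 0 := by
      intro x y hxy
      by_contra hne
      exact hxy (fun h => hne (by rw [h, zero_mul])) (fun h => hne (by rw [h, mul_zero]))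
    have e1' : h v * k' (v + e1 M) = 0 := by
      refine key _ _ fun hx hy => ?_
      have : v ∈ A ∨ v + e1 M ∈ A := by
        by_contra hcon
        push Not at hcon
        exact hx (a1 v hcon.1 hcon.2).1
      have hb : v + e1 M ∈ B ∨ v + e1 M + e2 M ∈ B := by
        by_contra hcon
        push Not at hcon
        exact hy (b2 _ hcon.1 hcon.2).2
      rcases this with ha | ha <;> rcases hb with hb | hb
      · exact hAB _ ha _ hb ⟨v, Or.inl rfl, Or.inr (Or.inl rfl)⟩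
      · exact hAB _ ha _ hb ⟨v, Or.inl rfl, Or.inr (Or.inr (Or.inr rfl))⟩
      · exact hAB _ ha _ hb ⟨v, Or.inr (Or.inl rfl), Or.inr (Or.inl rfl)⟩
      · exact hAB _ ha _ hb ⟨v, Or.inr (Or.inl rfl), Or.inr (Or.inr (Or.inr rfl))⟩
    have e2' : k v * h' (v + e2 M) = 0 := by
      refine key _ _ fun hx hy => ?_
      have c : v + e2 M + e1 M = v + e1 M + e2 M := by abel
      have : v ∈ A ∨ v + e2 M ∈ A := by
        by_contra hcon
        push Not at hcon
        exact hx (a2 v hcon.1 hcon.2).1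
      have hb : v + e2 M ∈ B ∨ v + e1 M + e2 M ∈ B := by
        by_contra hcon
        push Not at hcon
        exact hy (b1 _ hcon.1 (by rw [c]; exact hcon.2)).2
      rcases this with ha | ha <;> rcases hb with hb | hb
      · exact hAB _ ha _ hb ⟨v, Or.inl rfl, Or.inr (Or.inr (Or.inl rfl))⟩
      · exact hAB _ ha _ hb ⟨v, Or.inl rfl, Or.inr (Or.inr (Or.inr rfl))⟩
      · exact hAB _ ha _ hb ⟨v, Or.inr (Or.inr (Or.inl rfl)), Or.inr (Or.inr (Or.inl rfl))⟩
      · exact hAB _ ha _ hb ⟨v, Or.inr (Or.inr (Or.inl rfl)), Or.inr (Or.inr (Or.inr rfl))⟩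
    rw [e1', e2', sub_zero]
  have := cup_eq h k h' k' w1 w2
  rw [hz, s1, s2, s3, s4] at this
  have hM : (M : ℤ) ≠ 0 := Int.natCast_ne_zero.2 (NeZero.ne M)
  have h4 : (M : ℤ) ^ 2 * (M : ℤ) ^ 2 = 0 := by linarith
  exact (mul_ne_zero (pow_ne_zero 2 hM) (pow_ne_zero 2 hM)) h4

end HMT
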