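import Pool.Agent.Lib_helper14.HMT.Lev

/-!
# Measure layer: the exploration inequality
-/

set_option autoImplicit false

namespace HMT

open MeasureTheory Set
open scoped ENNReal

variable {M : ℕ} [NeZero M]

/-- indicator of an event as a `ℝ≥0∞`-valued function -/
noncomputable abbrev ind (A : Set (ZMod M × ZMod M → ℝ)) (f : ZMod M × ZMod M → ℝ) : ℝ≥0∞ :=
  A.indicator 1 f

/-- the lower tail bound for the field in a set without windings -/
def Hyp (w : (ZMod M × ZMod M → ℝ) → ℝ≥0∞) (b s : ℝ) (ε : ℝ≥0∞) : Prop :=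
  ∀ Λ : Finset (ZMod M × ZMod M), NoWind (Λ : Set (ZMod M × ZMod M)) → ∀ z ∈ Λ,
    ∀ ξ : ZMod M × ZMod M → ℝ, (∀ v, v ∉ Λ → -b ≤ ξ v) →
      (∫⋯∫⁻_Λ, fun f => ind {f | f z < -s} f * w f) ξ ≤ ε * (∫⋯∫⁻_Λ, w) ξ

theorem ind_meas {A : Set (ZMod M × ZMod M → ℝ)} (hA : MeasurableSet A) : Measurable (ind A) :=
  measurable_one.indicator hA

theorem lt_meas (z : ZMod M × ZMod M) (s : ℝ) :
    MeasurableSet {f : ZMod M × ZMod M → ℝ | f z < s} :=
  measurableSet_lt (measurable_pi_apply z) measurable_const

theorem win_of {a : ℝ} (h0 : 0 < a) (h1 : a ≤ 1) : win a = 1 := by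
  rw [win, indicator_of_mem (show a ∈ Ioc (0 : ℝ) 1 from ⟨h0, h1⟩)]; rfl

theorem win_ne {a : ℝ} (h : win a ≠ 0) : 0 < a ∧ a ≤ 1 := by
  by_contra hcon
  exact h (indicator_of_notMem (show a ∉ Ioc (0 : ℝ) 1 from fun h' => hcon h') _)

theorem explore (E : Expl M) (hE : E.F.Nonempty) {w : (ZMod M × ZMod M → ℝ) → ℝ≥0∞}
    (hw : Measurable w) {b s : ℝ} {ε : ℝ≥0∞} (hb : 0 ≤ b) (hbs : b ≤ s) (H : Hyp w b s ε)
    (z : ZMod M × ZMod M) :
    ∫⁻ f, win (E.lev f) * (ind {f | f z < -s} f * w f) ≤
      ε * (∫⁻ f, win (E.lev f) * w f) + ∫⁻ f, win (E.lev f) * (ind (bad M b) f * w f) := by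
  classical
  set 𝒞 := (Set.toFinite E.F).toFinset with h𝒞
  have hmem : ∀ C, C ∈ 𝒞 ↔ C ∈ E.F := fun C => by rw [h𝒞]; exact Set.Finite.mem_toFinset _
  have hz := lt_meas z (-s)
  have mA : Measurable fun f => ind {f : ZMod M × ZMod M → ℝ | f z < -s} f * w f :=
    (ind_meas hz).mul hw
  have mwin : Measurable fun f => win (E.lev f) := win_meas.comp (E.lev_meas hE)
  have mbad : Measurable fun f => win (E.lev f) * (ind (bad M b) f * w f) :=
    mwin.mul ((ind_meas (bad_meas b)).mul hw)
  have mev : ∀ C, Measurable fun f => ind (E.ev b C) f := fun C => ind_meas (E.ev_meas b C)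
  have step1 : ∀ f, win (E.lev f) * (ind {f | f z < -s} f * w f) ≤
      win (E.lev f) * (ind (bad M b) f * w f) +
        ∑ C ∈ 𝒞, ind (E.ev b C) f * (ind {f | f z < -s} f * w f) := by
    intro f
    by_cases h0 : win (E.lev f) = 0
    · rw [h0, zero_mul]; exact bot_le
    obtain ⟨ha, hb'⟩ := win_ne h0
    rw [win_of ha hb', one_mul, one_mul]
    by_cases hf : f ∈ bad M b
    · refine le_trans ?_ le_self_add
      have e : ind (bad M b) f = 1 := by rw [ind, indicator_of_mem hf]; rfl
      rw [e]
      gcongr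
      exact indicator_le_self' (fun _ _ => zero_le_one) f
    · refine le_trans ?_ le_add_self
      obtain ⟨C, hC, hfC⟩ := E.cover hE ha hb' hf
      refine le_trans ?_ (Finset.single_le_sum (f := fun C => ind (E.ev b C) f *
        (ind {f | f z < -s} f * w f)) (fun _ _ => bot_le) ((hmem C).2 hC))
      have e : ind (E.ev b C) f = 1 := by rw [ind, indicator_of_mem hfC]; rfl
      simp only [e, one_mul, le_refl]
  have step2 : ∀ f, ∑ C ∈ 𝒞, ind (E.ev b C) f ≤ win (E.lev f) := by
    intro f
    by_cases hex : ∃ C ∈ E.F, f ∈ E.ev b C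
    · obtain ⟨C, hC, hfC⟩ := hex
      obtain ⟨ha, hb', huniq⟩ := E.ev_win hE hC hfC
      rw [win_of ha hb', Finset.sum_eq_single C]
      · exact indicator_le_self' (fun _ _ => zero_le_one) f
      · intro D hD hne
        exact indicator_of_notMem (fun h => hne (huniq D ((hmem D).1 hD) h)) _
      · intro h; exact absurd ((hmem C).2 hC) h
    · push Not at hex
      rw [Finset.sum_eq_zero]
      · exact bot_le
      · intro C hC
        exact indicator_of_notMem (hex C ((hmem C).1 hC)) _
  have step3 : ∀ C ∈ 𝒞, ∫⁻ f, ind (E.ev b C) f * (ind {f | f z < -s} f * w f) ≤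
      ε * ∫⁻ f, ind (E.ev b C) f * w f := by
    intro C hC
    have hCF := (hmem C).1 hC
    by_cases hzC : z ∈ C ∪ E.N C
    · have e : ∀ f, ind (E.ev b C) f * (ind {f | f z < -s} f * w f) = 0 := by
        intro f
        by_cases hf : f ∈ E.ev b C
        · have hnot : f ∉ {f : ZMod M × ZMod M → ℝ | f z < -s} := by
            intro hlt
            have hlt' : f z < -s := hlt
            rcases hzC with h | h
            · have := hf.1 z h
              linarith
            · have := (hf.2.1 z h).1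
              linarith
          rw [ind, ind, indicator_of_notMem hnot, zero_mul, mul_zero]
        · rw [ind, indicator_of_notMem hf, zero_mul]
      simp only [e, lintegral_zero]
      exact bot_le
    · set Λ : Finset (ZMod M × ZMod M) := Finset.univ.filter (fun v => v ∉ C ∪ E.N C) with hΛ
      have hmΛ : ∀ v, v ∉ Λ ↔ v ∈ C ∪ E.N C := by
        intro v; rw [hΛ]; simp only [Finset.mem_filter, Finset.mem_univ, true_and, not_not]
      refine marg_le Λ (mev C) mA hw ε ?_ ?_
      · intro f f' hff
        have hiff : f ∈ E.ev b C ↔ f' ∈ E.ev b C := by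
          have hC' : ∀ v ∈ C, f v = f' v := fun v hv => hff v ((hmΛ v).2 (Or.inl hv))
          have hN' : ∀ v ∈ E.N C, f v = f' v := fun v hv => hff v ((hmΛ v).2 (Or.inr hv))
          simp only [Expl.ev, mem_ofPred_eq]
          refine and_congr ?_ (and_congr ?_ ?_)
          · exact forall₂_congr fun v hv => by rw [hC' v hv]
          · exact forall₂_congr fun v hv => by rw [hN' v hv]
          · refine forall₃_congr fun C' _ hsub => ?_
            exact exists_congr fun v => and_congr_right fun hv => by rw [hC' v (hsub hv)]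
        by_cases hf : f ∈ E.ev b C
        · rw [ind, ind, indicator_of_mem hf, indicator_of_mem (hiff.1 hf)]; rfl
        · rw [ind, ind, indicator_of_notMem hf, indicator_of_notMem (fun h => hf (hiff.2 h))]
      · intro ξ hξ
        have hξ' : ξ ∈ E.ev b C := by
          by_contra hcon
          exact hξ (indicator_of_notMem hcon _)
        refine H Λ ?_ z ?_ ξ ?_
        · intro u hu
          refine E.noWind C hCF u (hu.mono ?_)
          intro v hv hvC
          have : v ∉ Λ := (hmΛ v).2 (Or.inl hvC)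
          exact this hv
        · by_contra hcon
          exact hzC ((hmΛ z).1 hcon)
        · intro v hv
          rcases (hmΛ v).1 hv with h | h
          · have := hξ'.1 v h
            linarith
          · exact (hξ'.2.1 v h).1
  calc ∫⁻ f, win (E.lev f) * (ind {f | f z < -s} f * w f)
      ≤ ∫⁻ f, (win (E.lev f) * (ind (bad M b) f * w f) +
        ∑ C ∈ 𝒞, ind (E.ev b C) f * (ind {f | f z < -s} f * w f)) := lintegral_mono step1
    _ = (∫⁻ f, win (E.lev f) * (ind (bad M b) f * w f)) +
        ∑ C ∈ 𝒞, ∫⁻ f, ind (E.ev b C) f * (ind {f | f z < -s} f * w f) := by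
        rw [lintegral_add_left mbad, lintegral_finsetSum]
        exact fun C _ => (mev C).mul mA
    _ ≤ (∫⁻ f, win (E.lev f) * (ind (bad M b) f * w f)) +
        ∑ C ∈ 𝒞, ε * ∫⁻ f, ind (E.ev b C) f * w f := by
        gcongr with C hC
        exact step3 C hC
    _ = (∫⁻ f, win (E.lev f) * (ind (bad M b) f * w f)) +
        ε * ∫⁻ f, (∑ C ∈ 𝒞, ind (E.ev b C) f) * w f := by
        rw [← Finset.mul_sum]
        congr 2
        simp only [Finset.sum_mul]
        rw [lintegral_finsetSum]
        exact fun C _ => (mev C).mul hw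
    _ ≤ (∫⁻ f, win (E.lev f) * (ind (bad M b) f * w f)) + ε * ∫⁻ f, win (E.lev f) * w f := by
        gcongr with f
        exact step2 f
    _ = _ := add_comm _ _

/-- mass of a shift invariant event under the pinned field (pinned through the window of `f 0`) -/
noncomputable def mass (w : (ZMod M × ZMod M → ℝ) → ℝ≥0∞) (A : Set (ZMod M × ZMod M → ℝ)) : ℝ≥0∞ :=
  ∫⁻ f, win (f 0) * (ind A f * w f)

/-- **Level bound**: the level of the family exceeds `f z` by more than `s + 1` with small
probability. -/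
theorem lev_mass (E : Expl M) (hE : E.F.Nonempty) {w : (ZMod M × ZMod M → ℝ) → ℝ≥0∞}
    (hw : Measurable w) (hinv : ∀ f c, w (fun v => f v + c) = w f) {b s : ℝ} {ε : ℝ≥0∞}
    (hb : 0 ≤ b) (hbs : b ≤ s) (H : Hyp w b s ε) (z : ZMod M × ZMod M) :
    mass w {f | f z + s + 1 < E.lev f} ≤ ε * mass w univ + mass w (bad M b) := by
  have hmeas0 : Measurable fun f : ZMod M × ZMod M → ℝ => f 0 := measurable_pi_apply 0
  have sw : ∀ A : Set (ZMod M × ZMod M → ℝ), MeasurableSet A →
      (∀ f c, (fun v => f v + c) ∈ A ↔ f ∈ A) →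
      mass w A = ∫⁻ f, win (E.lev f) * (ind A f * w f) := by
    intro A hA hAinv
    refine swap ((ind_meas hA).mul hw) (fun f c => ?_) hmeas0 (E.lev_meas hE) (fun f c => rfl)
      (fun f c => E.lev_add hE f c)
    simp only [Pi.mul_apply]
    rw [hinv]
    congr 1
    by_cases hf : f ∈ A
    · rw [ind, ind, indicator_of_mem hf, indicator_of_mem ((hAinv f c).2 hf)]; rfl
    · rw [ind, ind, indicator_of_notMem hf, indicator_of_notMem (fun h => hf ((hAinv f c).1 h))]
  rw [sw _ (measurableSet_lt (((measurable_pi_apply z).add_const _).add_const _) (E.lev_meas hE))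
      (fun f c => by
        simp only [mem_ofPred_eq, E.lev_add hE]
        constructor <;> intro h <;> linarith),
    sw _ MeasurableSet.univ (fun _ _ => by simp),
    sw _ (bad_meas b) (fun f c => by simp [bad])]
  have e : ∀ f : ZMod M × ZMod M → ℝ, ind (univ : Set (ZMod M × ZMod M → ℝ)) f * w f = w f := by
    intro f; rw [ind, indicator_of_mem (mem_univ f)]; simp
  simp only [e]
  refine le_trans (lintegral_mono fun f => ?_) (explore E hE hw hb hbs H z)
  by_cases h0 : win (E.lev f) = 0
  · rw [h0, zero_mul, zero_mul]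
  obtain ⟨ha, hb'⟩ := win_ne h0
  gcongr
  by_cases hf : f ∈ {f : ZMod M × ZMod M → ℝ | f z + s + 1 < E.lev f}
  · have hf' : f ∈ {f : ZMod M × ZMod M → ℝ | f z < -s} := by
      have : f z + s + 1 < E.lev f := hf
      show f z < -s
      linarith
    rw [ind, ind, indicator_of_mem hf, indicator_of_mem hf']
  · rw [ind, indicator_of_notMem hf]; exact bot_le

end HMT
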