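import Pool.Agent.Lib_helper14.HMT.Pin

/-!
# Measure layer: conclusion on the torus
-/

set_option autoImplicit false

namespace HMT

open MeasureTheory Set
open scoped ENNReal

variable {M : ℕ} [NeZero M]

/-- the pinned mass for shift invariant events -/
theorem mass_pin {w : (ZMod M × ZMod M → ℝ) → ℝ≥0∞} (hw : Measurable w)
    (hinv : ∀ f c, w (fun v => f v + c) = w f) {A : Set (ZMod M × ZMod M → ℝ)}
    (mA : MeasurableSet A) (hA : ∀ f c, (fun v => f v + c) ∈ A ↔ f ∈ A) :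
    mass w A = pin 0 w A := by
  refine win_pin ((ind_meas mA).mul hw) (fun f c => ?_) 0
  simp only [Pi.mul_apply]
  rw [hinv]
  congr 1
  by_cases hf : f ∈ A
  · rw [ind, ind, indicator_of_mem hf, indicator_of_mem ((hA f c).2 hf)]; rfl
  · rw [ind, ind, indicator_of_notMem hf, indicator_of_notMem (fun h => hf ((hA f c).1 h))]

theorem pin_neg {G : Type*} [DecidableEq G] [Fintype G] {o : G} {w : (G → ℝ) → ℝ≥0∞}
    (hw : ∀ f, w (-f) = w f) (A : Set (G → ℝ)) : pin o w {f | -f ∈ A} = pin o w A := by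
  unfold pin lmarginal
  set s := Finset.univ.erase o
  have key := lintegral_neg_eq_self
    (fun y : s → ℝ => A.indicator (1 : (G → ℝ) → ℝ≥0∞) (Function.updateFinset 0 s y) *
      w (Function.updateFinset 0 s y)) (μ := volume)
  refine Eq.trans ?_ key
  refine lintegral_congr fun y => ?_
  have e : Function.updateFinset (0 : G → ℝ) s (-y) = -Function.updateFinset (0 : G → ℝ) s y := by
    ext v
    by_cases hv : v ∈ s
    · simp [Function.updateFinset, hv]
    · simp [Function.updateFinset, hv]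
  rw [e, hw]
  congr 1

/-- the two classes of directions, exchanged by the rotation -/
def I1 (u : ℤ × ℤ) : Prop := 0 < u.1 * u.2 ∨ (u.2 = 0 ∧ u.1 ≠ 0)
def I2 (u : ℤ × ℤ) : Prop := u.1 * u.2 < 0 ∨ (u.1 = 0 ∧ u.2 ≠ 0)

theorem I_cover {u : ℤ × ℤ} (hu : u ≠ 0) : I1 u ∨ I2 u := by
  rcases lt_trichotomy (u.1 * u.2) 0 with h | h | h
  · exact Or.inr (Or.inl h)
  · rcases mul_eq_zero.1 h with h1 | h1
    · refine Or.inr (Or.inr ⟨h1, fun h2 => hu (by ext <;> assumption)⟩)
    · refine Or.inl (Or.inr ⟨h1, fun h2 => hu (by ext <;> assumption)⟩)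
  · exact Or.inl (Or.inl h)

theorem I_par {u u' : ℤ × ℤ} (hu : I1 u) (hu' : I2 u') : u.1 * u'.2 ≠ u.2 * u'.1 := by
  intro h
  have e : (u.1 * u'.2) * (u.2 * u'.1) = (u.1 * u.2) * (u'.1 * u'.2) := by ring
  rw [h] at e
  have hsq : 0 ≤ (u.2 * u'.1) * (u.2 * u'.1) := mul_self_nonneg _
  rcases hu with h1 | ⟨h1, h1'⟩ <;> rcases hu' with h2 | ⟨h2, h2'⟩
  · nlinarith [mul_neg_of_pos_of_neg h1 h2]
  · rw [h2, mul_zero] at h
    rcases mul_eq_zero.1 h with h3 | h3
    · rw [h3, zero_mul] at h1; exact lt_irrefl _ h1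
    · exact h2' h3
  · rw [h1, zero_mul] at h
    rcases mul_eq_zero.1 h with h3 | h3
    · exact h1' h3
    · rw [h3, mul_zero] at h2; exact lt_irrefl _ h2
  · rw [h1, zero_mul] at h
    rcases mul_eq_zero.1 h with h3 | h3
    · exact h1' h3
    · exact h2' h3

/-- the event that `{f > σ}` contains a closed walk with winding in `I` -/
def WI (M : ℕ) (I : ℤ × ℤ → Prop) (σ : ℝ) : Set (ZMod M × ZMod M → ℝ) :=
  {f | ∃ u, I u ∧ Wind {v | σ < f v} u}

theorem WI_inc (I : ℤ × ℤ → Prop) (σ : ℝ) : Inc (WI M I σ) := by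
  rintro f ⟨u, hu, hw⟩ g hfg
  exact ⟨u, hu, hw.mono fun v hv => lt_of_lt_of_le (show σ < f v from hv) (hfg v)⟩

theorem WI_meas (I : ℤ × ℤ → Prop) (σ : ℝ) : MeasurableSet (WI M I σ) := by
  have e : WI M I σ = ⋃ S ∈ {S : Set (ZMod M × ZMod M) | ∃ u, I u ∧ Wind S u},
      ⋂ v ∈ S, {f : ZMod M × ZMod M → ℝ | σ < f v} := by
    ext f
    simp only [WI, mem_ofPred_eq, mem_iUnion, mem_iInter, exists_prop]
    constructor
    · rintro ⟨u, hu, hw⟩
      exact ⟨_, ⟨u, hu, hw⟩, fun v hv => hv⟩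
    · rintro ⟨S, ⟨u, hu, hw⟩, hS⟩
      exact ⟨u, hu, hw.mono fun v hv => hS v hv⟩
  rw [e]
  refine MeasurableSet.biUnion (Set.toFinite _).countable fun S _ => ?_
  exact MeasurableSet.biInter (Set.toFinite _).countable fun v _ =>
    measurableSet_lt measurable_const (measurable_pi_apply v)

/-- rotation of the torus -/
def rot (M : ℕ) : (ZMod M × ZMod M) ≃ (ZMod M × ZMod M) where
  toFun v := (-v.2, v.1)
  invFun v := (v.2, -v.1)
  left_inv v := by simp
  right_inv v := by simp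

omit [NeZero M] in
theorem conn_map {S T : Set (ZMod M × ZMod M)} (r : ℤ × ℤ → ℤ × ℤ)
    (hadj : ∀ a b, Adj a b → Adj (r a) (r b)) (hST : ∀ a, pr M a ∈ S → pr M (r a) ∈ T)
    {a b : ℤ × ℤ} (h : Conn S a b) : Conn T (r a) (r b) := by
  induction h with
  | refl => exact Relation.ReflTransGen.refl
  | tail _ h2 ih => exact Relation.ReflTransGen.tail ih ⟨hadj _ _ h2.1, hST _ h2.2.1, hST _ h2.2.2⟩

omit [NeZero M] in
theorem wind_rot {S : Set (ZMod M × ZMod M)} {u : ℤ × ℤ} (h : Wind (rot M ⁻¹' S) u) :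
    Wind S (-u.2, u.1) := by
  obtain ⟨p, hp, hc⟩ := h
  have hpr : ∀ a : ℤ × ℤ, pr M (-a.2, a.1) = rot M (pr M a) := by
    intro a; ext <;> simp [pr, rot]
  refine ⟨(-p.2, p.1), by rw [hpr]; exact hp, ?_⟩
  have := conn_map (T := S) (fun a => (-a.2, a.1)) (fun a b hab => ?_) (fun a ha => ?_) hc
  · have e : ((-p.2, p.1) : ℤ × ℤ) + (M * -u.2, M * u.1) =
        (-(p + ((M : ℤ) * u.1, (M : ℤ) * u.2)).2, (p + ((M : ℤ) * u.1, (M : ℤ) * u.2)).1) := by
      ext <;> simp; ring
    simp only at this ⊢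
    rw [e]
    exact this
  · rcases hab with h | h | h | h <;> subst h <;> simp only [Adj]
    · right; right; left; ext <;> simp
    · right; right; right; ext <;> simp
    · right; left; ext <;> simp
    · left; ext <;> simp
  · rw [hpr]; exact ha

omit [NeZero M] in
theorem wind_rot' {S : Set (ZMod M × ZMod M)} {u : ℤ × ℤ} (h : Wind S u) :
    Wind (rot M ⁻¹' S) (u.2, -u.1) := by
  obtain ⟨p, hp, hc⟩ := h
  have hpr : ∀ a : ℤ × ℤ, rot M (pr M (a.2, -a.1)) = pr M a := by
    intro a; ext <;> simp [pr, rot]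
  refine ⟨(p.2, -p.1), by show rot M _ ∈ S; rw [hpr]; exact hp, ?_⟩
  have := conn_map (T := rot M ⁻¹' S) (fun a => (a.2, -a.1)) (fun a b hab => ?_) (fun a ha => ?_) hc
  · have e : ((p.2, -p.1) : ℤ × ℤ) + (M * u.2, M * -u.1) =
        ((p + ((M : ℤ) * u.1, (M : ℤ) * u.2)).2, -(p + ((M : ℤ) * u.1, (M : ℤ) * u.2)).1) := by
      ext <;> simp; ring
    simp only at this ⊢
    rw [e]
    exact this
  · rcases hab with h | h | h | h <;> subst h <;> simp only [Adj]
    · right; right; right; ext <;> simp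
    · right; right; left; ext <;> simp
    · left; ext <;> simp
    · right; left; ext <;> simp
  · show rot M _ ∈ S
    rw [hpr]; exact ha

omit [NeZero M] in
theorem WI_rot (σ : ℝ) (f : ZMod M × ZMod M → ℝ) : f ∘ rot M ∈ WI M I1 σ ↔ f ∈ WI M I2 σ := by
  have e : {v | σ < (f ∘ rot M) v} = rot M ⁻¹' {v | σ < f v} := rfl
  constructor
  · rintro ⟨u, hu, hw⟩
    rw [e] at hw
    refine ⟨_, ?_, wind_rot hw⟩
    rcases hu with h | ⟨h, h'⟩
    · left; simp only; linarith [mul_comm u.1 u.2]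
    · right; exact ⟨by simp [h], h'⟩
  · rintro ⟨u, hu, hw⟩
    refine ⟨(u.2, -u.1), ?_, by rw [e]; exact wind_rot' hw⟩
    rcases hu with h | ⟨h, h'⟩
    · left; simp only; linarith [mul_comm u.1 u.2]
    · right; exact ⟨by simp [h], h'⟩

theorem wind_univ (u : ℤ × ℤ) (k : ℕ) (hk : u = ((k : ℤ), 0) ∨ u = (0, (k : ℤ))) :
    Conn (univ : Set (ZMod M × ZMod M)) 0 u := by
  rcases hk with rfl | rfl
  · induction k with
    | zero => exact Relation.ReflTransGen.refl
    | succ k ih =>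
      refine Relation.ReflTransGen.tail ih ⟨Or.inl ?_, mem_univ _, mem_univ _⟩
      ext <;> simp
  · induction k with
    | zero => exact Relation.ReflTransGen.refl
    | succ k ih =>
      refine Relation.ReflTransGen.tail ih ⟨Or.inr (Or.inr (Or.inl ?_)), mem_univ _, mem_univ _⟩
      ext <;> simp

theorem explR_ne : (explR M).F.Nonempty := by
  have h1 : Wind (univ : Set (ZMod M × ZMod M)) (1, 0) :=
    ⟨0, mem_univ _, wind_univ _ M (Or.inl (by ext <;> simp))⟩
  have h2 : Wind (univ : Set (ZMod M × ZMod M)) (0, 1) :=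
    ⟨0, mem_univ _, wind_univ _ M (Or.inr (by ext <;> simp))⟩
  obtain ⟨C, hC, -⟩ := rank_ex h1 h2 (by simp)
  exact ⟨C, hC⟩

theorem explB_ne : (explB M).F.Nonempty := by
  obtain ⟨C, hC, -⟩ := dual_ex (M := M) (U := ∅) (by
    rintro u ⟨p, hp, -⟩
    exact absurd hp (notMem_empty _))
  exact ⟨C, hC⟩

/-- **Conclusion on the torus.** -/
theorem torus {w : (ZMod M × ZMod M → ℝ) → ℝ≥0∞} (mw : Measurable w)
    (hinv : ∀ f c, w (fun v => f v + c) = w f) (hl : LSM w) (heven : ∀ f, w (-f) = w f)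
    (hrot : ∀ f, w (f ∘ rot M) = w f) {b s : ℝ} {ε : ℝ≥0∞} (hb : 0 ≤ b) (hbs : b ≤ s)
    (H : Hyp w b s ε) (x : ZMod M × ZMod M) :
    ∃ P : ℝ≥0∞, P * P ≤ (ε * pin 0 w univ + pin 0 w (bad M b)) * pin 0 w univ ∧
      pin 0 w {f | 2 * s + 3 < f x} ≤ P + P + (ε * pin 0 w univ + pin 0 w (bad M b)) := by
  set Q := ε * pin 0 w univ + pin 0 w (bad M b) with hQ
  have hlev : ∀ (E : Expl M), E.F.Nonempty → ∀ z, pin 0 w {f | f z + s + 1 < E.lev f} ≤ Q := by
    intro E hE z
    have h1 := lev_mass E hE mw hinv hb hbs H z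
    rw [mass_pin mw hinv (measurableSet_lt (((measurable_pi_apply z).add_const _).add_const _)
        (E.lev_meas hE)) (fun f c => by
          simp only [mem_ofPred_eq, E.lev_add hE]
          constructor <;> intro h <;> linarith),
      mass_pin mw hinv MeasurableSet.univ (fun _ _ => by simp),
      mass_pin mw hinv (bad_meas b) (fun f c => by simp [bad])] at h1
    exact h1
  set P := pin 0 w (WI M I1 (s + 1)) with hP
  have hPP : pin 0 w (WI M I2 (s + 1)) = P :=
    pin_symm mw (WI_meas I1 (s + 1)) (rot M) (by simp [rot]) hrot (fun f => WI_rot (s + 1) f)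
  refine ⟨P, ?_, ?_⟩
  · have h1 := pin_fkg (o := (0 : ZMod M × ZMod M)) mw hl (WI_meas I1 (s + 1)) (WI_meas I2 (s + 1))
      (WI_inc I1 (s + 1)) (WI_inc I2 (s + 1))
    rw [hPP] at h1
    refine h1.trans (mul_le_mul' ?_ le_rfl)
    refine le_trans (pin_congr fun f hf0 hf => ?_) (hlev (explR M) explR_ne 0)
    obtain ⟨⟨u, hu, hwu⟩, ⟨u', hu', hwu'⟩⟩ := hf
    show f 0 + s + 1 < (explR M).lev f
    rw [hf0, zero_add, (explR M).lt_lev explR_ne]
    obtain ⟨C, hC, hCU⟩ := rank_ex hwu hwu' (I_par hu hu')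
    exact ⟨C, hC, fun v hv => hCU hv⟩
  · have hsub : pin 0 w {f | 2 * s + 3 < f x} ≤
        pin 0 w ((WI M I1 (s + 1) ∪ WI M I2 (s + 1)) ∪
          {f | -f ∈ {g : ZMod M × ZMod M → ℝ | g x + s + 1 < (explB M).lev g}}) := by
      refine pin_congr fun f hf0 hf => ?_
      by_cases hW : f ∈ WI M I1 (s + 1) ∪ WI M I2 (s + 1)
      · exact Or.inl hW
      · right
        have hno : NoWind {v | s + 1 < f v} := by
          intro u hu
          by_contra hne
          rcases I_cover hne with h | h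
          · exact hW (Or.inl ⟨u, h, hu⟩)
          · exact hW (Or.inr ⟨u, h, hu⟩)
        obtain ⟨C, hC, hCU⟩ := dual_ex hno
        have h1 : -(s + 2) < (explB M).lev (-f) := by
          rw [(explB M).lt_lev explB_ne]
          refine ⟨C, hC, fun v hv => ?_⟩
          have : ¬ (s + 1 < f v) := hCU hv
          simp only [Pi.neg_apply]
          linarith [not_lt.1 this]
        have h2 : 2 * s + 3 < f x := hf
        show (-f) x + s + 1 < (explB M).lev (-f)
        simp only [Pi.neg_apply]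
        linarith
    refine hsub.trans ((pin_union mw ((WI_meas _ _).union (WI_meas _ _))).trans ?_)
    refine add_le_add ((pin_union mw (WI_meas _ _)).trans ?_) ?_
    · rw [hPP]
    · rw [pin_neg heven]
      exact hlev (explB M) explB_ne x

end HMT
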