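import Mathlib

/-!
# Torus layer of the hammock theorem: closed cochains on the discrete torus

`G = ZMod M × ZMod M`.  A cochain is a pair `h, k : G → ℤ` (`h v` sits on the edge
`v → v + e₁`, `k v` on `v → v + e₂`).
-/

set_option autoImplicit false

namespace HMT

open Finset

variable {M : ℕ} [NeZero M]

/-- first and second unit vector of the torus -/
abbrev e1 (M : ℕ) : ZMod M × ZMod M := (1, 0)
abbrev e2 (M : ℕ) : ZMod M × ZMod M := (0, 1)

/-- closed cochain: the sum around every plaquette is `0` -/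
def Closed (h k : ZMod M × ZMod M → ℤ) : Prop :=
  ∀ v, h v + k (v + e1 M) = k v + h (v + e2 M)

theorem sum_shift (f : ZMod M × ZMod M → ℤ) (c : ZMod M × ZMod M) : ∑ v, f (v + c) = ∑ v, f v :=
  Fintype.sum_equiv (Equiv.addRight c) _ _ fun _ => rfl

/-- `τ_{(i,j)}`-translates: the explicit primitive of `τ w - w` -/
def prim (h k : ZMod M × ZMod M → ℤ) (i j : ℕ) (v : ZMod M × ZMod M) : ℤ :=
  ∑ a ∈ range i, h (v + ((a : ZMod M), 0)) + ∑ b ∈ range j, k (v + ((i : ZMod M), (b : ZMod M)))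

theorem row (h k : ZMod M × ZMod M → ℤ) (hw : Closed h k) (i : ℕ) (v : ZMod M × ZMod M) :
    ∑ a ∈ range i, h (v + e2 M + ((a : ZMod M), 0)) - ∑ a ∈ range i, h (v + ((a : ZMod M), 0)) =
      k (v + ((i : ZMod M), 0)) - k v := by
  induction i with
  | zero => simp [Prod.mk_zero_zero]
  | succ i ih =>
    rw [sum_range_succ, sum_range_succ]
    have h1 := hw (v + ((i : ZMod M), 0))
    have e : v + ((i : ZMod M), (0 : ZMod M)) + e1 M = v + (((i + 1 : ℕ) : ZMod M), 0) := by
      ext <;> simp <;> ring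
    have e' : v + ((i : ZMod M), (0 : ZMod M)) + e2 M = v + e2 M + ((i : ZMod M), 0) := by
      ext <;> simp <;> ring
    rw [e, e'] at h1
    linarith

theorem col (h k : ZMod M × ZMod M → ℤ) (hw : Closed h k) (j : ℕ) (v : ZMod M × ZMod M) :
    ∑ b ∈ range j, k (v + e1 M + (0, (b : ZMod M))) - ∑ b ∈ range j, k (v + (0, (b : ZMod M))) =
      h (v + (0, (j : ZMod M))) - h v := by
  induction j with
  | zero => simp [Prod.mk_zero_zero]
  | succ j ih =>
    rw [sum_range_succ, sum_range_succ]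
    have h1 := hw (v + (0, (j : ZMod M)))
    have e : v + ((0 : ZMod M), (j : ZMod M)) + e2 M = v + (0, ((j + 1 : ℕ) : ZMod M)) := by
      ext <;> simp <;> ring
    have e' : v + ((0 : ZMod M), (j : ZMod M)) + e1 M = v + e1 M + (0, (j : ZMod M)) := by
      ext <;> simp <;> ring
    rw [e, e'] at h1
    linarith

theorem tele_h (h : ZMod M × ZMod M → ℤ) (i : ℕ) (v : ZMod M × ZMod M) :
    ∑ a ∈ range i, h (v + e1 M + ((a : ZMod M), 0)) - ∑ a ∈ range i, h (v + ((a : ZMod M), 0)) =
      h (v + ((i : ZMod M), 0)) - h v := by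
  induction i with
  | zero => simp [Prod.mk_zero_zero]
  | succ i ih =>
    rw [sum_range_succ, sum_range_succ]
    have e : v + e1 M + ((i : ZMod M), 0) = v + (((i + 1 : ℕ) : ZMod M), 0) := by
      ext <;> simp <;> ring
    rw [e]
    linarith

theorem tele_k (k : ZMod M × ZMod M → ℤ) (j : ℕ) (v : ZMod M × ZMod M) :
    ∑ b ∈ range j, k (v + e2 M + (0, (b : ZMod M))) - ∑ b ∈ range j, k (v + (0, (b : ZMod M))) =
      k (v + (0, (j : ZMod M))) - k v := by
  induction j with
  | zero => simp [Prod.mk_zero_zero]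
  | succ j ih =>
    rw [sum_range_succ, sum_range_succ]
    have e : v + e2 M + (0, (j : ZMod M)) = v + (0, ((j + 1 : ℕ) : ZMod M)) := by
      ext <;> simp <;> ring
    rw [e]
    linarith

theorem prim_e1 (h k : ZMod M × ZMod M → ℤ) (hw : Closed h k) (i j : ℕ) (v : ZMod M × ZMod M) :
    prim h k i j (v + e1 M) - prim h k i j v = h (v + ((i : ZMod M), (j : ZMod M))) - h v := by
  have h1 := tele_h h i v
  have h2 := col h k hw j (v + ((i : ZMod M), 0))
  have e : ∀ b : ℕ, v + ((i : ZMod M), (0 : ZMod M)) + e1 M + (0, (b : ZMod M)) =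
      v + e1 M + ((i : ZMod M), (b : ZMod M)) := fun b => by ext <;> simp <;> ring
  have e' : ∀ b : ℕ, v + ((i : ZMod M), (0 : ZMod M)) + (0, (b : ZMod M)) =
      v + ((i : ZMod M), (b : ZMod M)) := fun b => by ext <;> simp
  simp only [e, e'] at h2
  simp only [prim]
  linarith

theorem prim_e2 (h k : ZMod M × ZMod M → ℤ) (hw : Closed h k) (i j : ℕ) (v : ZMod M × ZMod M) :
    prim h k i j (v + e2 M) - prim h k i j v = k (v + ((i : ZMod M), (j : ZMod M))) - k v := by
  have h1 := row h k hw i v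
  have h2 := tele_k k j (v + ((i : ZMod M), 0))
  have e : ∀ b : ℕ, v + ((i : ZMod M), (0 : ZMod M)) + e2 M + (0, (b : ZMod M)) =
      v + e2 M + ((i : ZMod M), (b : ZMod M)) := fun b => by ext <;> simp <;> ring
  have e' : ∀ b : ℕ, v + ((i : ZMod M), (0 : ZMod M)) + (0, (b : ZMod M)) =
      v + ((i : ZMod M), (b : ZMod M)) := fun b => by ext <;> simp
  simp only [e, e'] at h2
  simp only [prim]
  linarith

theorem sum_all (f : ZMod M × ZMod M → ℤ) (v : ZMod M × ZMod M) :
    ∑ i ∈ range M, ∑ j ∈ range M, f (v + ((i : ZMod M), (j : ZMod M))) = ∑ u, f u := by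
  rw [← sum_shift f v, Fintype.sum_prod_type]
  have key : ∀ F : ZMod M → ℤ, ∑ i ∈ range M, F (i : ZMod M) = ∑ i, F i := by
    intro F
    refine sum_bij' (fun i _ => (i : ZMod M)) (fun a _ => a.val) (fun _ _ => mem_univ _)
      (fun a _ => mem_range.2 (ZMod.val_lt a)) (fun i hi => ?_) (fun a _ => ?_) (fun _ _ => rfl)
    · exact ZMod.val_cast_of_lt (mem_range.1 hi)
    · exact ZMod.natCast_zmod_val a
  rw [← key fun i => ∑ j, f ((i, j) + v)]
  refine sum_congr rfl fun i _ => ?_
  rw [← key fun j => f (((i : ZMod M), j) + v)]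
  refine sum_congr rfl fun j _ => ?_
  rw [add_comm]

/-- **Exactness up to constants.** -/
theorem exact (h k : ZMod M × ZMod M → ℤ) (hw : Closed h k) :
    ∃ φ : ZMod M × ZMod M → ℤ,
      (∀ v, φ (v + e1 M) - φ v = (M : ℤ) ^ 2 * h v - ∑ u, h u) ∧
      ∀ v, φ (v + e2 M) - φ v = (M : ℤ) ^ 2 * k v - ∑ u, k u := by
  refine ⟨fun v => -∑ i ∈ range M, ∑ j ∈ range M, prim h k i j v, fun v => ?_, fun v => ?_⟩
  · have h1 : ∑ i ∈ range M, ∑ j ∈ range M, (prim h k i j (v + e1 M) - prim h k i j v) =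
        ∑ i ∈ range M, ∑ j ∈ range M, (h (v + ((i : ZMod M), (j : ZMod M))) - h v) :=
      sum_congr rfl fun i _ => sum_congr rfl fun j _ => prim_e1 h k hw i j v
    simp only [sum_sub_distrib] at h1
    rw [sum_all h v] at h1
    simp only [sum_const, card_range, nsmul_eq_mul] at h1
    linear_combination -h1
  · have h1 : ∑ i ∈ range M, ∑ j ∈ range M, (prim h k i j (v + e2 M) - prim h k i j v) =
        ∑ i ∈ range M, ∑ j ∈ range M, (k (v + ((i : ZMod M), (j : ZMod M))) - k v) :=
      sum_congr rfl fun i _ => sum_congr rfl fun j _ => prim_e2 h k hw i j v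
    simp only [sum_sub_distrib] at h1
    rw [sum_all k v] at h1
    simp only [sum_const, card_range, nsmul_eq_mul] at h1
    linear_combination -h1

/-- the cup product -/
def cup (h k h' k' : ZMod M × ZMod M → ℤ) : ℤ :=
  ∑ v, (h v * k' (v + e1 M) - k v * h' (v + e2 M))

theorem cup_eq (h k h' k' : ZMod M × ZMod M → ℤ) (hw : Closed h k) (hw' : Closed h' k') :
    (M : ℤ) ^ 2 * cup h k h' k' = (∑ v, h v) * (∑ v, k' v) - (∑ v, k v) * ∑ v, h' v := by
  obtain ⟨φ, h1, h2⟩ := exact h' k' hw'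
  have e : ∀ v, (M : ℤ) ^ 2 * (h v * k' (v + e1 M) - k v * h' (v + e2 M)) =
      h v * (∑ u, k' u) - k v * (∑ u, h' u) +
      ((h v - k v) * φ (v + e1 M + e2 M) - h v * φ (v + e1 M) + k v * φ (v + e2 M)) := by
    intro v
    have a := h2 (v + e1 M)
    have b := h1 (v + e2 M)
    have c : v + e2 M + e1 M = v + e1 M + e2 M := by abel
    rw [c] at b
    linear_combination (-h v) * a + k v * b
  have z : ∑ v, ((h v - k v) * φ (v + e1 M + e2 M) - h v * φ (v + e1 M) + k v * φ (v + e2 M)) = 0 := by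
    have s1 : ∑ v, h v * φ (v + e1 M) = ∑ v, h (v + e2 M) * φ (v + e1 M + e2 M) := by
      rw [← sum_shift (fun v => h v * φ (v + e1 M)) (e2 M)]
      refine sum_congr rfl fun v _ => ?_
      have c : v + e2 M + e1 M = v + e1 M + e2 M := by abel
      rw [c]
    have s2 : ∑ v, k v * φ (v + e2 M) = ∑ v, k (v + e1 M) * φ (v + e1 M + e2 M) := by
      rw [← sum_shift (fun v => k v * φ (v + e2 M)) (e1 M)]
    rw [sum_add_distrib, sum_sub_distrib, s1, s2, ← sum_sub_distrib, ← sum_add_distrib]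
    refine sum_eq_zero fun v _ => ?_
    have := hw v
    linear_combination (φ (v + e1 M + e2 M)) * this
  rw [cup, mul_sum]
  simp only [e]
  rw [sum_add_distrib, z, add_zero, sum_sub_distrib, sum_mul, sum_mul]

end HMT
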