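import Pool.Agent.Lib_helper14.HMT.Dual

/-!
# Torus layer: duality
If the complement of `V` contains no winding closed walk, some `*`-component of `V` is blocking.
-/

set_option autoImplicit false

namespace HMT

open Finset Relation

variable {M : ℕ} [NeZero M]

omit [NeZero M] in
theorem Star.symm {v w : ZMod M × ZMod M} (h : Star v w) : Star w v := by
  obtain ⟨u, h1, h2⟩ := h
  exact ⟨u, h2, h1⟩

omit [NeZero M] in
theorem SConn.symm {V : Set (ZMod M × ZMod M)} {v w : ZMod M × ZMod M} (h : SConn V v w) :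
    SConn V w v := by
  induction h with
  | refl => exact ReflTransGen.refl
  | tail _ h2 ih => exact ReflTransGen.head ⟨h2.2.1, h2.1, h2.2.2.symm⟩ ih

/-- the equivalence relation `*`-connected inside `V` -/
def sset (V : Set (ZMod M × ZMod M)) : Setoid (ZMod M × ZMod M) where
  r := SConn V
  iseqv := ⟨fun _ => ReflTransGen.refl, fun h => h.symm, fun h h' => ReflTransGen.trans h h'⟩

/-- the class of a vertex -/
def cls (V : Set (ZMod M × ZMod M)) (v : ZMod M × ZMod M) : Quotient (sset V) := Quotient.mk _ v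

/-- class `i` has a vertex on plaquette `u` -/
def Touch (V : Set (ZMod M × ZMod M)) (i : Quotient (sset V)) (u : ZMod M × ZMod M) : Prop :=
  ∃ w, InP u w ∧ w ∈ V ∧ cls V w = i

open Classical in
/-- restriction of a function on edges of direction `c` to the edges that touch class `i` -/
noncomputable def rst (V : Set (ZMod M × ZMod M)) (c : ZMod M × ZMod M) (g : ZMod M × ZMod M → ℤ)
    (i : Quotient (sset V)) (v : ZMod M × ZMod M) : ℤ :=
  if (v ∈ V ∧ cls V v = i) ∨ (v + c ∈ V ∧ cls V (v + c) = i) then g v else 0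

omit [NeZero M] in
theorem cls_eq {V : Set (ZMod M × ZMod M)} {u v w : ZMod M × ZMod M} (h1 : InP u v) (h2 : InP u w)
    (hv : v ∈ V) (hw : w ∈ V) : cls V v = cls V w :=
  Quotient.sound (show SConn V v w from ReflTransGen.single ⟨hv, hw, u, h1, h2⟩)

omit [NeZero M] in
theorem rst_touch {V : Set (ZMod M × ZMod M)} {c : ZMod M × ZMod M} {g : ZMod M × ZMod M → ℤ}
    {i : Quotient (sset V)} {u v : ZMod M × ZMod M} (h1 : InP u v) (h2 : InP u (v + c))
    (ht : Touch V i u) (hg : v ∉ V → v + c ∉ V → g v = 0) : rst V c g i v = g v := by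
  obtain ⟨w, hw, hwV, rfl⟩ := ht
  rw [rst]
  split_ifs with hc
  · rfl
  · push Not at hc
    refine (hg (fun hv => ?_) (fun hv => ?_)).symm
    · exact hc.1 hv (cls_eq h1 hw hv hwV)
    · exact hc.2 hv (cls_eq h2 hw hv hwV)

omit [NeZero M] in
theorem rst_not {V : Set (ZMod M × ZMod M)} {c : ZMod M × ZMod M} {g : ZMod M × ZMod M → ℤ}
    {i : Quotient (sset V)} {u v : ZMod M × ZMod M} (h1 : InP u v) (h2 : InP u (v + c))
    (ht : ¬ Touch V i u) : rst V c g i v = 0 := by
  rw [rst]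
  split_ifs with hc
  · exfalso
    rcases hc with hc | hc
    · exact ht ⟨_, h1, hc.1, hc.2⟩
    · exact ht ⟨_, h2, hc.1, hc.2⟩
  · rfl

omit [NeZero M] in
theorem inp1 (v : ZMod M × ZMod M) : InP v v := Or.inl rfl

omit [NeZero M] in
theorem inp2 (v : ZMod M × ZMod M) : InP v (v + e1 M) := Or.inr (Or.inl rfl)

omit [NeZero M] in
theorem inp3 (v : ZMod M × ZMod M) : InP v (v + e2 M) := Or.inr (Or.inr (Or.inl rfl))

omit [NeZero M] in
theorem inp4 (v : ZMod M × ZMod M) : InP v (v + e1 M + e2 M) := Or.inr (Or.inr (Or.inr rfl))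

omit [NeZero M] in
theorem inp5 (v : ZMod M × ZMod M) : InP v (v + e2 M + e1 M) :=
  Or.inr (Or.inr (Or.inr (by abel)))

/-- **Duality.** -/
theorem duality {V : Set (ZMod M × ZMod M)} (hV : NoWind Vᶜ) :
    ∃ v ∈ V, NoWind {w | SConn V v w}ᶜ := by
  classical
  obtain ⟨h, k, h', k', w1, w2, a1, a2, s1, s2, s3, s4⟩ := cochain hV
  have hM : (M : ℤ) ≠ 0 := Int.natCast_ne_zero.2 (NeZero.ne M)
  have closed : ∀ i, ∀ f g : ZMod M × ZMod M → ℤ, Closed f g →
      (∀ v, v ∉ V → v + e1 M ∉ V → f v = 0) → (∀ v, v ∉ V → v + e2 M ∉ V → g v = 0) →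
      Closed (rst V (e1 M) f i) (rst V (e2 M) g i) := by
    intro i f g hfg hf hg v
    by_cases ht : Touch V i v
    · rw [rst_touch (inp1 v) (inp2 v) ht (hf v), rst_touch (inp1 v) (inp3 v) ht (hg v),
        rst_touch (inp2 v) (inp4 v) ht (hg _), rst_touch (inp3 v) (inp5 v) ht (hf _)]
      exact hfg v
    · rw [rst_not (inp1 v) (inp2 v) ht, rst_not (inp1 v) (inp3 v) ht,
        rst_not (inp2 v) (inp4 v) ht, rst_not (inp3 v) (inp5 v) ht]
  have cupi : ∀ i, cup (rst V (e1 M) h i) (rst V (e2 M) k i) (rst V (e1 M) h' i) (rst V (e2 M) k' i)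
      = ∑ v, if Touch V i v then h v * k' (v + e1 M) - k v * h' (v + e2 M) else 0 := by
    intro i
    refine sum_congr rfl fun v _ => ?_
    split_ifs with ht
    · rw [rst_touch (inp1 v) (inp2 v) ht (fun x y => (a1 v x y).1),
        rst_touch (inp1 v) (inp3 v) ht (fun x y => (a2 v x y).1),
        rst_touch (inp2 v) (inp4 v) ht (fun x y => (a2 _ x y).2),
        rst_touch (inp3 v) (inp5 v) ht (fun x y => (a1 _ x y).2)]
    · rw [rst_not (inp1 v) (inp2 v) ht, rst_not (inp1 v) (inp3 v) ht, zero_mul, zero_mul, sub_zero]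
  have hsum : ∑ i, cup (rst V (e1 M) h i) (rst V (e2 M) k i) (rst V (e1 M) h' i) (rst V (e2 M) k' i)
      = cup h k h' k' := by
    simp only [cupi]
    rw [sum_comm]
    refine sum_congr rfl fun v _ => ?_
    by_cases hex : ∃ w, InP v w ∧ w ∈ V
    · obtain ⟨w, hw, hwV⟩ := hex
      have hiff : ∀ i, Touch V i v ↔ i = cls V w := by
        intro i
        constructor
        · rintro ⟨x, hx, hxV, rfl⟩
          exact cls_eq hx hw hxV hwV
        · rintro rfl
          exact ⟨w, hw, hwV, rfl⟩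
      simp only [hiff, sum_ite_eq', mem_univ, if_true]
    · push Not at hex
      have e : ∀ i, ¬ Touch V i v := fun i ⟨x, hx, hxV, _⟩ => hex x hx hxV
      simp only [e, if_false, sum_const_zero]
      rw [(a1 v (hex _ (inp1 v)) (hex _ (inp2 v))).1, (a2 v (hex _ (inp1 v)) (hex _ (inp3 v))).1]
      ring
  have hcup : cup h k h' k' ≠ 0 := by
    intro h0
    have := cup_eq h k h' k' w1 w2
    rw [h0, s1, s2, s3, s4] at this
    have h4 : (M : ℤ) ^ 2 * (M : ℤ) ^ 2 = 0 := by linarith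
    exact (mul_ne_zero (pow_ne_zero 2 hM) (pow_ne_zero 2 hM)) h4
  rw [← hsum] at hcup
  obtain ⟨i, -, hi⟩ := exists_ne_zero_of_sum_ne_zero hcup
  have ht : ∃ v, Touch V i v := by
    by_contra hcon
    push Not at hcon
    apply hi
    rw [cupi]
    exact sum_eq_zero fun v _ => if_neg (hcon v)
  obtain ⟨-, w, -, hwV, rfl⟩ := ht
  refine ⟨w, hwV, fun u hu => ?_⟩
  have hnot : ∀ v, v ∈ ({x | SConn V w x}ᶜ : Set (ZMod M × ZMod M)) → ¬ cls V v = cls V w := by
    intro v hv he
    exact hv (Quotient.exact he.symm : SConn V w v)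
  have r1 : ∀ (c : ZMod M × ZMod M) (g : ZMod M × ZMod M → ℤ),
      ∀ v, v ∈ ({x | SConn V w x}ᶜ : Set (ZMod M × ZMod M)) →
        v + c ∈ ({x | SConn V w x}ᶜ : Set (ZMod M × ZMod M)) → rst V c g (cls V w) v = 0 := by
    intro c g v hv hvc
    rw [rst, if_neg]
    rintro (hc | hc)
    · exact hnot _ hv hc.2
    · exact hnot _ hvc hc.2
  have c1 := closed (cls V w) h k w1 (fun v x y => (a1 v x y).1) (fun v x y => (a2 v x y).1)
  have c2 := closed (cls V w) h' k' w2 (fun v x y => (a1 v x y).2) (fun v x y => (a2 v x y).2)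
  have p1 := pair c1 (r1 _ h) (r1 _ k) hu
  have p2 := pair c2 (r1 _ h') (r1 _ k') hu
  have hd := cup_eq _ _ _ _ c1 c2
  set H := ∑ v, rst V (e1 M) h (cls V w) v
  set K := ∑ v, rst V (e2 M) k (cls V w) v
  set H' := ∑ v, rst V (e1 M) h' (cls V w) v
  set K' := ∑ v, rst V (e2 M) k' (cls V w) v
  have hne : H * K' - K * H' ≠ 0 := by
    rw [← hd]
    exact mul_ne_zero (pow_ne_zero 2 hM) hi
  have q1 : u.1 * (H * K' - K * H') = 0 := by linear_combination K' * p1 - K * p2
  have q2 : u.2 * (H * K' - K * H') = 0 := by linear_combination H * p2 - H' * p1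
  ext
  · exact (mul_eq_zero.1 q1).resolve_right hne
  · exact (mul_eq_zero.1 q2).resolve_right hne

end HMT
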