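import Pool.Agent.Lib_helper14.HMT.Duality

/-!
# Torus layer: the two families of explored sets
`R2`: nearest neighbour connected sets with two non-parallel windings.
`B2`: `*`-connected blocking sets.
-/

set_option autoImplicit false

namespace HMT

open Finset Relation

variable {M : ℕ} [NeZero M]

/-- A family of vertex sets with a boundary operator that can be explored. -/
structure Expl (M : ℕ) [NeZero M] where
  /-- the family -/
  F : Set (Set (ZMod M × ZMod M))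
  /-- the boundary -/
  N : Set (ZMod M × ZMod M) → Set (ZMod M × ZMod M)
  nonempty : ∀ C ∈ F, C.Nonempty
  disj : ∀ C, ∀ v ∈ N C, v ∉ C
  ex : ∀ U : Set (ZMod M × ZMod M), (∃ C ∈ F, C ⊆ U) → ∃ C ∈ F, C ⊆ U ∧ ∀ v ∈ N C, v ∉ U
  max : ∀ U : Set (ZMod M × ZMod M), ∀ C ∈ F, C ⊆ U → (∀ v ∈ N C, v ∉ U) → ∀ C' ∈ F, C' ⊆ U → C' ⊆ C
  noWind : ∀ C ∈ F, NoWind Cᶜ
  star : ∀ C, ∀ v ∈ N C, ∃ w ∈ C, Star v w

/-- nearest neighbours on the torus -/
def NN (v w : ZMod M × ZMod M) : Prop := ∃ p q : ℤ × ℤ, pr M p = v ∧ pr M q = w ∧ Adj p q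

omit [NeZero M] in
theorem NN.symm {v w : ZMod M × ZMod M} (h : NN v w) : NN w v := by
  obtain ⟨p, q, h1, h2, h3⟩ := h
  exact ⟨q, p, h2, h1, h3.symm⟩

omit [NeZero M] in
theorem NN.star {v w : ZMod M × ZMod M} (h : NN v w) : Star v w := by
  obtain ⟨p, q, rfl, rfl, h | h | h | h⟩ := h <;> subst h
  · exact ⟨pr M p, inp1 _, by rw [pr_e1]; exact inp2 _⟩
  · exact ⟨pr M q, by rw [pr_e1]; exact inp2 _, inp1 _⟩
  · exact ⟨pr M p, inp1 _, by rw [pr_e2]; exact inp3 _⟩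
  · exact ⟨pr M q, by rw [pr_e2]; exact inp3 _, inp1 _⟩

/-- boundary for nearest neighbours -/
def nb (C : Set (ZMod M × ZMod M)) : Set (ZMod M × ZMod M) := {v | v ∉ C ∧ ∃ w ∈ C, NN v w}

/-- boundary for `*`-neighbours -/
def sb (C : Set (ZMod M × ZMod M)) : Set (ZMod M × ZMod M) := {v | v ∉ C ∧ ∃ w ∈ C, Star v w}

/-- rank 2 sets -/
def R2 (C : Set (ZMod M × ZMod M)) : Prop :=
  ∃ p, pr M p ∈ C ∧ (∀ v ∈ C, ∃ q, Conn C p q ∧ pr M q = v) ∧
    ∃ u u' : ℤ × ℤ, Conn C p (p + (M * u.1, M * u.2)) ∧ Conn C p (p + (M * u'.1, M * u'.2)) ∧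
      u.1 * u'.2 ≠ u.2 * u'.1

/-- `*`-connected blocking sets -/
def B2 (C : Set (ZMod M × ZMod M)) : Prop :=
  ∃ v ∈ C, (∀ w ∈ C, SConn C v w) ∧ NoWind Cᶜ

theorem R2.noWind {C : Set (ZMod M × ZMod M)} (hC : R2 C) : NoWind Cᶜ := by
  obtain ⟨p, hp, -, u, u', hu, hu', hne⟩ := hC
  intro x hx
  have h1 := inter (S := Cᶜ) (T := C) (fun v hv => hv) hx ⟨p, hp, hu⟩
  have h2 := inter (S := Cᶜ) (T := C) (fun v hv => hv) hx ⟨p, hp, hu'⟩
  have hd : u.1 * u'.2 - u.2 * u'.1 ≠ 0 := sub_ne_zero.2 hne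
  have q1 : x.1 * (u.1 * u'.2 - u.2 * u'.1) = 0 := by linear_combination u.1 * h2 - u'.1 * h1
  have q2 : x.2 * (u.1 * u'.2 - u.2 * u'.1) = 0 := by linear_combination u.2 * h2 - u'.2 * h1
  ext
  · exact (mul_eq_zero.1 q1).resolve_right hd
  · exact (mul_eq_zero.1 q2).resolve_right hd

omit [NeZero M] in
theorem clu_conn {U : Set (ZMod M × ZMod M)} (p : ℤ × ℤ) :
    ∀ v ∈ Clu U p, ∃ q, Conn (Clu U p) p q ∧ pr M q = v := by
  rintro v ⟨q, hq, rfl⟩
  exact ⟨q, hq.inClu, rfl⟩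

/-- a connected subset of `U` that meets a set closed under neighbours in `U` lies in it -/
theorem sub_of_meet {U C C' : Set (ZMod M × ZMod M)} (hC : ∀ v ∈ nb C, v ∉ U) (hC' : C' ⊆ U)
    {p : ℤ × ℤ} (hp : pr M p ∈ C') (hconn : ∀ v ∈ C', ∃ q, Conn C' p q ∧ pr M q = v)
    {x : ZMod M × ZMod M} (hx : x ∈ C) (hx' : x ∈ C') : C' ⊆ C := by
  have key : ∀ a b, Conn C' a b → pr M a ∈ C → pr M b ∈ C := by
    intro a b hab ha
    induction hab with
    | refl => exact ha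
    | @tail b c _ hbc ih =>
      by_contra hcon
      exact hC (pr M c) ⟨hcon, pr M b, ih, ⟨c, b, rfl, rfl, hbc.1.symm⟩⟩ (hC' hbc.2.2)
  obtain ⟨q, hq, rfl⟩ := hconn x hx'
  have hpC : pr M p ∈ C := key _ _ hq.symm hx
  intro v hv
  obtain ⟨r, hr, rfl⟩ := hconn v hv
  exact key _ _ hr hpC

/-- the rank 2 family -/
def explR (M : ℕ) [NeZero M] : Expl M where
  F := {C | R2 C}
  N := nb
  nonempty := fun C ⟨p, hp, _⟩ => ⟨_, hp⟩
  disj := fun C v hv => hv.1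
  ex := by
    rintro U ⟨C, ⟨p, hp, hconn, u, u', hu, hu', hne⟩, hCU⟩
    refine ⟨Clu U p, ⟨p, ⟨p, ReflTransGen.refl, rfl⟩, clu_conn p, u, u', ?_, ?_, hne⟩,
      clu_sub (hCU hp), ?_⟩
    · exact (hu.mono hCU).inClu
    · exact (hu'.mono hCU).inClu
    · rintro v ⟨hv, w, ⟨q, hq, rfl⟩, hvw⟩ hvU
      obtain ⟨a, b, h1, h2, h3⟩ := hvw.symm
      obtain ⟨t, ht⟩ := pr_eq h1
      refine hv ⟨b + (M * t.1, M * t.2), hq.tail ⟨?_, hq.mem (hCU hp), ?_⟩, by rw [pr_shift, h2]⟩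
      · rw [ht]; exact h3.shift _
      · rw [pr_shift, h2]; exact hvU
  max := by
    rintro U C hC hCU hN C' hC' hCU'
    have hCw := hC
    have hCw' := hC'
    obtain ⟨p, hp, hconn, u, u', hu, hu', hne⟩ := hC'
    by_cases hm : ∃ x, x ∈ C ∧ x ∈ C'
    · obtain ⟨x, hx, hx'⟩ := hm
      exact sub_of_meet hN hCU' hp hconn hx hx'
    · push Not at hm
      exfalso
      have h0 : ∀ v, v ∈ C' → v ∈ Cᶜ := fun v hv hv' => hm v hv' hv
      have z1 := R2.noWind hCw u (Wind.mono h0 ⟨p, hp, hu⟩)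
      apply hne
      rw [z1]
      simp
  noWind := fun C hC => R2.noWind hC
  star := by
    rintro C v ⟨-, w, hw, h⟩
    exact ⟨w, hw, h.star⟩

omit [NeZero M] in
theorem SConn.mono {V W : Set (ZMod M × ZMod M)} (hVW : V ⊆ W) {a b : ZMod M × ZMod M}
    (h : SConn V a b) : SConn W a b := by
  induction h with
  | refl => exact ReflTransGen.refl
  | tail _ h2 ih => exact ReflTransGen.tail ih ⟨hVW h2.1, hVW h2.2.1, h2.2.2⟩

omit [NeZero M] in
theorem SConn.inside {V : Set (ZMod M × ZMod M)} {a b : ZMod M × ZMod M} (h : SConn V a b) :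
    SConn {x | SConn V a x} a b := by
  induction h with
  | refl => exact ReflTransGen.refl
  | tail h1 h2 ih => exact ReflTransGen.tail ih ⟨h1, ReflTransGen.tail h1 h2, h2.2.2⟩

omit [NeZero M] in
theorem SConn.mem {V : Set (ZMod M × ZMod M)} {a b : ZMod M × ZMod M} (h : SConn V a b)
    (ha : a ∈ V) : b ∈ V := by
  induction h with
  | refl => exact ha
  | tail _ h2 _ => exact h2.2.1

/-- the blocking family -/
def explB (M : ℕ) [NeZero M] : Expl M where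
  F := {C | B2 C}
  N := sb
  nonempty := fun C ⟨p, hp, _⟩ => ⟨_, hp⟩
  disj := fun C v hv => hv.1
  ex := by
    rintro U ⟨C, ⟨v, hv, hconn, hno⟩, hCU⟩
    refine ⟨{x | SConn U v x}, ⟨v, ReflTransGen.refl, fun w hw => SConn.inside hw, ?_⟩,
      fun x hx => SConn.mem hx (hCU hv), ?_⟩
    · intro u hu
      refine hno u (hu.mono ?_)
      intro x hx hxC
      exact hx (show SConn U v x from (hconn x hxC).mono hCU)
    · rintro x ⟨hx, w, hw, hxw⟩ hxU
      exact hx (ReflTransGen.tail hw ⟨SConn.mem hw (hCU hv), hxU, hxw.symm⟩)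
  max := by
    rintro U C hC hCU hN C' hC' hCU'
    obtain ⟨v, hv, hconn, hno⟩ := hC'
    obtain ⟨v0, hv0, hconn0, hno0⟩ := hC
    have key : ∀ a b, SConn C' a b → a ∈ C → b ∈ C := by
      intro a b hab ha
      induction hab with
      | refl => exact ha
      | @tail b c _ hbc ih =>
        by_contra hcon
        exact hN c ⟨hcon, b, ih, hbc.2.2.symm⟩ (hCU' hbc.2.1)
    by_cases hm : ∃ x, x ∈ C ∧ x ∈ C'
    · obtain ⟨x, hx, hx'⟩ := hm
      have h1 := key _ _ (hconn x hx').symm hx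
      intro w hw
      exact key _ _ (hconn w hw) h1
    · push Not at hm
      exfalso
      refine unique (A := C) (B := C') (fun a ha b hb hab => ?_) hno0 hno
      exact hN b ⟨fun h => hm b h hb, a, ha, hab.symm⟩ (hCU' hb)
  noWind := fun C hC => by
    obtain ⟨v, hv, hconn, hno⟩ := hC
    exact hno
  star := by
    rintro C v ⟨-, w, hw, h⟩
    exact ⟨w, hw, h⟩

/-- **Duality**: no winding in `U` gives a blocking set in the complement -/
theorem dual_ex {U : Set (ZMod M × ZMod M)} (hU : NoWind U) : ∃ C ∈ (explB M).F, C ⊆ Uᶜ := by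
  obtain ⟨v, hv, hno⟩ := duality (V := Uᶜ) (by rw [compl_compl]; exact hU)
  exact ⟨{x | SConn Uᶜ v x}, ⟨v, ReflTransGen.refl, fun w hw => SConn.inside hw, hno⟩,
    fun x hx => SConn.mem hx hv⟩

/-- two closed walks with non-parallel windings give a rank 2 set -/
theorem rank_ex {U : Set (ZMod M × ZMod M)} {u u' : ℤ × ℤ} (hu : Wind U u) (hu' : Wind U u')
    (hne : u.1 * u'.2 ≠ u.2 * u'.1) : ∃ C ∈ (explR M).F, C ⊆ U := by
  obtain ⟨p, hp, hc⟩ := hu
  obtain ⟨p', hp', hc'⟩ := hu'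
  by_cases hm : ∃ x, x ∈ Clu U p ∧ x ∈ Clu U p'
  · obtain ⟨x, ⟨q, hq, hqx⟩, ⟨q', hq', hqx'⟩⟩ := hm
    obtain ⟨t, ht⟩ := pr_eq (hqx'.trans hqx.symm)
    -- p ~ q = q' + M t ~ p' + M t
    have h1 : Conn U p (p' + (M * t.1, M * t.2)) := by
      refine hq.trans ?_
      rw [ht]
      exact (hq'.symm).shift t
    have h2 : Conn U p (p + (M * u'.1, M * u'.2)) := by
      refine h1.trans ((hc'.shift t).trans ?_)
      have e : p' + ((M : ℤ) * u'.1, (M : ℤ) * u'.2) + ((M : ℤ) * t.1, (M : ℤ) * t.2) =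
          p' + ((M : ℤ) * t.1, (M : ℤ) * t.2) + ((M : ℤ) * u'.1, (M : ℤ) * u'.2) := by abel
      rw [e]
      exact (h1.symm).shift u'
    exact ⟨Clu U p, ⟨p, ⟨p, ReflTransGen.refl, rfl⟩, clu_conn p, u, u', hc.inClu, h2.inClu, hne⟩,
      clu_sub hp⟩
  · push Not at hm
    exact absurd (inter (S := Clu U p) (T := Clu U p') (fun v hv => hm v hv)
      ⟨p, ⟨p, ReflTransGen.refl, rfl⟩, hc.inClu⟩ ⟨p', ⟨p', ReflTransGen.refl, rfl⟩, hc'.inClu⟩) hne

end HMT
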