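import Mathlib

/-!
# Measure layer: the normalisation does not depend on the level function
-/

set_option autoImplicit false

namespace HMT

open MeasureTheory Set
open scoped ENNReal

/-- window `(0, 1]` -/
noncomputable def win (a : ℝ) : ℝ≥0∞ := (Ioc (0 : ℝ) 1).indicator 1 a

theorem win_meas : Measurable win := measurable_one.indicator measurableSet_Ioc

theorem win_add (a : ℝ) : ∫⁻ c, win (a + c) = 1 := by
  rw [lintegral_add_left_eq_self (μ := volume) (f := win) a]
  simp only [win]
  rw [lintegral_indicator_one measurableSet_Ioc]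
  simp

theorem win_sub (a : ℝ) : ∫⁻ c, win (a - c) = 1 := by
  rw [lintegral_sub_left_eq_self (μ := volume) (f := win) a]
  simp only [win]
  rw [lintegral_indicator_one measurableSet_Ioc]
  simp

variable {G : Type*} [Fintype G]

theorem swap {Φ : (G → ℝ) → ℝ≥0∞} (hΦ : Measurable Φ) (hinv : ∀ f c, Φ (fun v => f v + c) = Φ f)
    {T T' : (G → ℝ) → ℝ} (hT : Measurable T) (hT' : Measurable T')
    (hTc : ∀ f c, T (fun v => f v + c) = T f + c) (hTc' : ∀ f c, T' (fun v => f v + c) = T' f + c) :
    ∫⁻ f, win (T f) * Φ f = ∫⁻ f, win (T' f) * Φ f := by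
  have m1 : Measurable fun p : (G → ℝ) × ℝ => win (T p.1) * Φ p.1 * win (T' p.1 + p.2) :=
    ((win_meas.comp (hT.comp measurable_fst)).mul (hΦ.comp measurable_fst)).mul
      (win_meas.comp ((hT'.comp measurable_fst).add measurable_snd))
  have m2 : Measurable fun p : ℝ × (G → ℝ) => win (T p.2 - p.1) * Φ p.2 * win (T' p.2) :=
    ((win_meas.comp ((hT.comp measurable_snd).sub measurable_fst)).mul (hΦ.comp measurable_snd)).mul
      (win_meas.comp (hT'.comp measurable_snd))
  calc ∫⁻ f, win (T f) * Φ f = ∫⁻ f, ∫⁻ c, win (T f) * Φ f * win (T' f + c) := by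
        refine lintegral_congr fun f => ?_
        have hm : Measurable fun c : ℝ => win (T' f + c) :=
          win_meas.comp (measurable_const.add measurable_id)
        rw [lintegral_const_mul _ hm, win_add, mul_one]
    _ = ∫⁻ c, ∫⁻ f, win (T f) * Φ f * win (T' f + c) := by
        rw [lintegral_lintegral_swap m1.aemeasurable]
    _ = ∫⁻ c, ∫⁻ f, win (T f - c) * Φ f * win (T' f) := by
        refine lintegral_congr fun c => ?_
        have := lintegral_add_right_eq_self (μ := (volume : Measure (G → ℝ)))
          (fun f => win (T f) * Φ f * win (T' f + c)) (fun _ => -c)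
        rw [← this]
        refine lintegral_congr fun f => ?_
        have e : f + (fun _ => -c) = fun v => f v + -c := rfl
        rw [e, hTc, hTc', hinv]
        congr 2
        ring_nf
    _ = ∫⁻ f, ∫⁻ c, win (T f - c) * Φ f * win (T' f) := by
        rw [lintegral_lintegral_swap m2.aemeasurable]
    _ = ∫⁻ f, win (T' f) * Φ f := by
        refine lintegral_congr fun f => ?_
        have e : ∀ c, win (T f - c) * Φ f * win (T' f) = (Φ f * win (T' f)) * win (T f - c) := by
          intro c; ring
        simp only [e]
        have hm : Measurable fun c : ℝ => win (T f - c) :=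
          win_meas.comp (measurable_const.sub measurable_id)
        rw [lintegral_const_mul _ hm, win_sub, mul_one, mul_comm]

end HMT
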