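import Pool.Agent.Lib_helper14.HMT.Fam
import Pool.Agent.Lib_helper14.HMT.Swap

/-!
# Measure layer: level functions of an explored family and the exploration inequality
-/

set_option autoImplicit false

namespace HMT

open MeasureTheory Set
open scoped ENNReal

variable {M : ℕ} [NeZero M]

/-- the level of the family: `s < lev f` iff `{f > s}` contains a member of the family -/
noncomputable def Expl.lev (E : Expl M) (f : ZMod M × ZMod M → ℝ) : ℝ :=
  sSup {s | ∃ C ∈ E.F, ∀ v ∈ C, s < f v}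

theorem Expl.bdd (E : Expl M) (f : ZMod M × ZMod M → ℝ) :
    BddAbove {s | ∃ C ∈ E.F, ∀ v ∈ C, s < f v} := by
  refine ⟨∑ v, |f v|, ?_⟩
  rintro s ⟨C, hC, hs⟩
  obtain ⟨v, hv⟩ := E.nonempty C hC
  exact (hs v hv).le.trans ((le_abs_self _).trans
    (Finset.single_le_sum (f := fun v => |f v|) (fun _ _ => abs_nonneg _) (Finset.mem_univ v)))

theorem Expl.lt_lev (E : Expl M) (hE : E.F.Nonempty) (f : ZMod M × ZMod M → ℝ) (s : ℝ) :
    s < E.lev f ↔ ∃ C ∈ E.F, ∀ v ∈ C, s < f v := by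
  have hne : {s | ∃ C ∈ E.F, ∀ v ∈ C, s < f v}.Nonempty := by
    obtain ⟨C, hC⟩ := hE
    refine ⟨-(∑ v, |f v|) - 1, C, hC, fun v _ => ?_⟩
    have := (neg_le_abs (f v)).trans
      (Finset.single_le_sum (f := fun v => |f v|) (fun _ _ => abs_nonneg _) (Finset.mem_univ v))
    linarith
  constructor
  · intro hs
    obtain ⟨s', ⟨C, hC, h'⟩, hlt⟩ := exists_lt_of_lt_csSup hne hs
    exact ⟨C, hC, fun v hv => hlt.trans (h' v hv)⟩
  · rintro ⟨C, hC, hs⟩
    obtain ⟨v0, hv0, hmin⟩ := Set.exists_min_image C f (Set.toFinite C) (E.nonempty C hC)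
    have h1 := hs v0 hv0
    have h2 : (s + f v0) / 2 ∈ {s | ∃ C ∈ E.F, ∀ v ∈ C, s < f v} :=
      ⟨C, hC, fun v hv => lt_of_lt_of_le (by linarith) (hmin v hv)⟩
    have := le_csSup (E.bdd f) h2
    unfold Expl.lev
    linarith

theorem Expl.lev_add (E : Expl M) (hE : E.F.Nonempty) (f : ZMod M × ZMod M → ℝ) (c : ℝ) :
    E.lev (fun v => f v + c) = E.lev f + c := by
  refine eq_of_forall_lt_iff fun s => ?_
  rw [E.lt_lev hE, ← sub_lt_iff_lt_add, E.lt_lev hE]
  simp only [sub_lt_iff_lt_add]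

theorem Expl.lev_meas (E : Expl M) (hE : E.F.Nonempty) : Measurable E.lev := by
  refine measurable_of_Ioi fun s => ?_
  have : E.lev ⁻¹' Ioi s = ⋃ C ∈ E.F, ⋂ v ∈ C, {f : ZMod M × ZMod M → ℝ | s < f v} := by
    ext f
    simp only [mem_preimage, mem_Ioi, mem_iUnion, mem_iInter, mem_ofPred_eq, exists_prop]
    exact E.lt_lev hE f s
  rw [this]
  refine MeasurableSet.biUnion (Set.toFinite _).countable fun C _ => ?_
  exact MeasurableSet.biInter (Set.toFinite _).countable fun v _ =>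
    measurableSet_lt measurable_const (measurable_pi_apply v)

/-- the event that `C` is the explored set at level `0` and the level of `f` is at most `1` -/
def Expl.ev (E : Expl M) (b : ℝ) (C : Set (ZMod M × ZMod M)) : Set (ZMod M × ZMod M → ℝ) :=
  {f | (∀ v ∈ C, 0 < f v) ∧ (∀ v ∈ E.N C, -b ≤ f v ∧ f v ≤ 0) ∧
    ∀ C' ∈ E.F, C' ⊆ C → ∃ v ∈ C', f v ≤ 1}

theorem Expl.ev_meas (E : Expl M) (b : ℝ) (C : Set (ZMod M × ZMod M)) :
    MeasurableSet (E.ev b C) := by
  have h1 : MeasurableSet {f : ZMod M × ZMod M → ℝ | ∀ v ∈ C, 0 < f v} := by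
    have e : {f : ZMod M × ZMod M → ℝ | ∀ v ∈ C, 0 < f v} = ⋂ v ∈ C, {f | 0 < f v} := by
      ext f; simp
    rw [e]
    exact MeasurableSet.biInter (Set.toFinite _).countable fun v _ =>
      measurableSet_lt measurable_const (measurable_pi_apply v)
  have h2 : MeasurableSet {f : ZMod M × ZMod M → ℝ | ∀ v ∈ E.N C, -b ≤ f v ∧ f v ≤ 0} := by
    have e : {f : ZMod M × ZMod M → ℝ | ∀ v ∈ E.N C, -b ≤ f v ∧ f v ≤ 0} =
        ⋂ v ∈ E.N C, ({f | -b ≤ f v} ∩ {f | f v ≤ 0}) := by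
      ext f; simp
    rw [e]
    exact MeasurableSet.biInter (Set.toFinite _).countable fun v _ =>
      (measurableSet_le measurable_const (measurable_pi_apply v)).inter
        (measurableSet_le (measurable_pi_apply v) measurable_const)
  have h3 : MeasurableSet {f : ZMod M × ZMod M → ℝ | ∀ C' ∈ E.F, C' ⊆ C → ∃ v ∈ C', f v ≤ 1} := by
    have e : {f : ZMod M × ZMod M → ℝ | ∀ C' ∈ E.F, C' ⊆ C → ∃ v ∈ C', f v ≤ 1} =
        ⋂ C' ∈ {C' | C' ∈ E.F ∧ C' ⊆ C}, ⋃ v ∈ C', {f | f v ≤ 1} := by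
      ext f; simp
    rw [e]
    refine MeasurableSet.biInter (Set.toFinite _).countable fun C' _ => ?_
    exact MeasurableSet.biUnion (Set.toFinite _).countable fun v _ =>
      measurableSet_le (measurable_pi_apply v) measurable_const
  exact h1.inter (h2.inter h3)

/-- the explored set is unique and its event lies in the window of the level -/
theorem Expl.ev_win (E : Expl M) (hE : E.F.Nonempty) {b : ℝ} {C : Set (ZMod M × ZMod M)}
    (hC : C ∈ E.F) {f : ZMod M × ZMod M → ℝ} (hf : f ∈ E.ev b C) :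
    0 < E.lev f ∧ E.lev f ≤ 1 ∧ ∀ D ∈ E.F, f ∈ E.ev b D → D = C := by
  obtain ⟨h1, h2, h3⟩ := hf
  refine ⟨(E.lt_lev hE f 0).2 ⟨C, hC, h1⟩, ?_, ?_⟩
  · by_contra hcon
    push Not at hcon
    obtain ⟨C', hC', h'⟩ := (E.lt_lev hE f 1).1 hcon
    have hsub : C' ⊆ C := E.max {v | 0 < f v} C hC h1 (fun v hv => not_lt.2 (h2 v hv).2) C' hC'
      (fun v hv => show 0 < f v from zero_lt_one.trans (h' v hv))
    obtain ⟨v, hv, hle⟩ := h3 C' hC' hsub
    exact absurd hle (not_le.2 (h' v hv))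
  · rintro D hD ⟨g1, g2, -⟩
    exact Set.Subset.antisymm
      (E.max {v | 0 < f v} C hC h1 (fun v hv => not_lt.2 (h2 v hv).2) D hD g1)
      (E.max {v | 0 < f v} D hD g1 (fun v hv => not_lt.2 (g2 v hv).2) C hC h1)

/-- some `*`-edge changes the field by more than `b` -/
def bad (M : ℕ) (b : ℝ) : Set (ZMod M × ZMod M → ℝ) := {f | ∃ v w, Star v w ∧ b < |f v - f w|}

theorem bad_meas (b : ℝ) : MeasurableSet (bad M b) := by
  have e : bad M b = ⋃ v, ⋃ w, ⋃ _ : Star v w, {f | b < |f v - f w|} := by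
    ext f; simp [bad]
  rw [e]
  refine MeasurableSet.iUnion fun v => MeasurableSet.iUnion fun w => MeasurableSet.iUnion fun _ => ?_
  exact measurableSet_lt measurable_const
    ((measurable_pi_apply v).sub (measurable_pi_apply w)).abs

/-- outside the bad event the window is covered by the exploration events -/
theorem Expl.cover (E : Expl M) (hE : E.F.Nonempty) {b : ℝ} {f : ZMod M × ZMod M → ℝ}
    (h0 : 0 < E.lev f) (h1 : E.lev f ≤ 1) (hb : f ∉ bad M b) : ∃ C ∈ E.F, f ∈ E.ev b C := by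
  obtain ⟨C', hC', h'⟩ := (E.lt_lev hE f 0).1 h0
  obtain ⟨C, hC, hCU, hN⟩ := E.ex {v | 0 < f v} ⟨C', hC', h'⟩
  refine ⟨C, hC, hCU, fun v hv => ⟨?_, not_lt.1 (hN v hv)⟩, fun D hD _ => ?_⟩
  · obtain ⟨w, hw, hs⟩ := E.star C v hv
    by_contra hcon
    push Not at hcon
    have hw0 : 0 < f w := hCU hw
    refine hb ⟨v, w, hs, ?_⟩
    rw [abs_sub_comm]
    exact lt_of_lt_of_le (by linarith) (le_abs_self _)
  · by_contra hcon
    push Not at hcon
    exact absurd h1 (not_le.2 ((E.lt_lev hE f 1).2 ⟨D, hD, hcon⟩))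

/-- comparison through the marginal -/
theorem marg_le {G : Type*} [Fintype G] [DecidableEq G] (Λ : Finset G)
    {g A B : (G → ℝ) → ℝ≥0∞} (hgm : Measurable g) (hA : Measurable A) (hB : Measurable B)
    (ε : ℝ≥0∞) (hg : ∀ f f' : G → ℝ, (∀ v, v ∉ Λ → f v = f' v) → g f = g f')
    (h : ∀ ξ, g ξ ≠ 0 → (∫⋯∫⁻_Λ, A) ξ ≤ ε * (∫⋯∫⁻_Λ, B) ξ) :
    ∫⁻ f, g f * A f ≤ ε * ∫⁻ f, g f * B f := by
  have pull : ∀ (D : (G → ℝ) → ℝ≥0∞), Measurable D → ∀ (c : ℝ≥0∞) ξ,
      (∫⋯∫⁻_Λ, fun f => c * (g f * D f)) ξ = c * (g ξ * (∫⋯∫⁻_Λ, D) ξ) := by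
    intro D hD c ξ
    unfold lmarginal
    have e : ∀ y : (i : Λ) → ℝ, g (Function.updateFinset ξ Λ y) = g ξ := by
      intro y
      refine hg _ _ fun v hv => ?_
      simp [Function.updateFinset, hv]
    simp only [e]
    rw [lintegral_const_mul, lintegral_const_mul]
    · exact hD.comp measurable_updateFinset
    · exact (hD.comp measurable_updateFinset).const_mul _
  have hgB : Measurable fun f => g f * B f := hgm.mul hB
  have hgA : Measurable fun f => g f * A f := hgm.mul hA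
  rw [← lintegral_const_mul _ hgB]
  have key := lintegral_le_of_lmarginal_le (μ := fun _ : G => (volume : Measure ℝ)) Λ
    (f := fun f => 1 * (g f * A f)) (g := fun f => ε * (g f * B f))
    (hgA.const_mul _) (hgB.const_mul _) ?_
  · simp only [one_mul] at key
    exact key
  · intro ξ
    have e1 := pull A hA 1 ξ
    have e2 := pull B hB ε ξ
    rw [e1, e2]
    by_cases h0 : g ξ = 0
    · rw [h0, zero_mul, zero_mul, mul_zero]; exact bot_le
    · calc 1 * (g ξ * (∫⋯∫⁻_Λ, A) ξ) = g ξ * (∫⋯∫⁻_Λ, A) ξ := one_mul _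
        _ ≤ g ξ * (ε * (∫⋯∫⁻_Λ, B) ξ) := by gcongr; exact h ξ h0
        _ = ε * (g ξ * (∫⋯∫⁻_Λ, B) ξ) := by ring

end HMT
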