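import Pool.Agent.Lib_helper14.HMT.Expo
import Pool.Agent.Lib_helper14.HMT.FF

/-!
# Measure layer: the pinned field, rotation
-/

set_option autoImplicit false

namespace HMT

open MeasureTheory Set
open scoped ENNReal

section general

variable {G : Type*} [DecidableEq G]

theorem lmarg_shift {Φ : (G → ℝ) → ℝ≥0∞} (hinv : ∀ f c, Φ (fun v => f v + c) = Φ f) (s : Finset G)
    {ξ η : G → ℝ} {c : ℝ} (h : ∀ v, v ∉ s → ξ v = η v + c) :
    (∫⋯∫⁻_s, Φ) ξ = (∫⋯∫⁻_s, Φ) η := by
  unfold lmarginal
  have key := lintegral_add_right_eq_self (μ := (volume : Measure (s → ℝ)))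
    (fun y => Φ (Function.updateFinset ξ s y)) (fun _ => c)
  refine Eq.trans (Eq.symm key) ?_
  refine lintegral_congr fun y => ?_
  have e : Function.updateFinset ξ s (y + fun _ => c) = fun v => Function.updateFinset η s y v + c := by
    ext v
    by_cases hv : v ∈ s
    · simp [Function.updateFinset, hv]
    · simp [Function.updateFinset, hv, h v hv]
  rw [e, hinv]

variable [Fintype G]

/-- the window normalisation equals the pinned integral -/
theorem win_pin {Φ : (G → ℝ) → ℝ≥0∞} (hΦ : Measurable Φ)
    (hinv : ∀ f c, Φ (fun v => f v + c) = Φ f) (o : G) :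
    ∫⁻ f, win (f o) * Φ f = (∫⋯∫⁻_(Finset.univ.erase o), Φ) 0 := by
  have mw : Measurable fun f : G → ℝ => win (f o) * Φ f :=
    (win_meas.comp (measurable_pi_apply o)).mul hΦ
  have h1 : ∫⁻ f, win (f o) * Φ f = (∫⋯∫⁻_Finset.univ, fun f => win (f o) * Φ f) 0 :=
    lintegral_eq_lmarginal_univ (μ := fun _ : G => (volume : Measure ℝ)) 0
  rw [h1, lmarginal_erase _ mw (Finset.mem_univ o)]
  have e : ∀ c : ℝ, (∫⋯∫⁻_(Finset.univ.erase o), fun f => win (f o) * Φ f)
      (Function.update 0 o c) = (∫⋯∫⁻_(Finset.univ.erase o), Φ) 0 * win (0 + c) := by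
    intro c
    have h2 : (∫⋯∫⁻_(Finset.univ.erase o), Φ) (Function.update (0 : G → ℝ) o c) =
        (∫⋯∫⁻_(Finset.univ.erase o), Φ) 0 := by
      refine lmarg_shift hinv _ (c := c) fun v hv => ?_
      have : v = o := by simpa using hv
      subst this
      simp
    rw [← h2]
    unfold lmarginal
    have e3 : ∀ y : ((i : (Finset.univ.erase o : Finset G)) → ℝ),
        win (Function.updateFinset (Function.update (0 : G → ℝ) o c) (Finset.univ.erase o) y o) =
          win (0 + c) := by
      intro y
      simp [Function.updateFinset]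
    simp only [e3]
    rw [mul_comm, lintegral_const_mul]
    exact hΦ.comp measurable_updateFinset
  simp only [e]
  have mc : Measurable fun c : ℝ => win (0 + c) := win_meas.comp (measurable_const.add measurable_id)
  rw [lintegral_const_mul _ mc, win_add, mul_one]

/-- pinned mass of an event: integral over all `f` with `f o = 0` -/
noncomputable def pin (o : G) (w : (G → ℝ) → ℝ≥0∞) (A : Set (G → ℝ)) : ℝ≥0∞ :=
  (∫⋯∫⁻_(Finset.univ.erase o), fun f => A.indicator 1 f * w f) 0

theorem pin_congr {o : G} {w : (G → ℝ) → ℝ≥0∞} {A B : Set (G → ℝ)}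
    (h : ∀ f : G → ℝ, f o = 0 → f ∈ A → f ∈ B) : pin o w A ≤ pin o w B := by
  unfold pin lmarginal
  refine lintegral_mono fun y => mul_le_mul' ?_ le_rfl
  set f := Function.updateFinset (0 : G → ℝ) (Finset.univ.erase o) y
  have hf : f o = 0 := by simp [f, Function.updateFinset]
  by_cases hA : f ∈ A
  · rw [indicator_of_mem hA, indicator_of_mem (h f hf hA)]
  · rw [indicator_of_notMem hA]; exact bot_le

theorem pin_union {o : G} {w : (G → ℝ) → ℝ≥0∞} (hw : Measurable w) {A B : Set (G → ℝ)}
    (hA : MeasurableSet A) : pin o w (A ∪ B) ≤ pin o w A + pin o w B := by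
  unfold pin lmarginal
  rw [← lintegral_add_left]
  · refine lintegral_mono fun y => ?_
    simp only
    rw [← add_mul]
    refine mul_le_mul' ?_ le_rfl
    set f := Function.updateFinset (0 : G → ℝ) (Finset.univ.erase o) y
    by_cases h1 : f ∈ A
    · refine le_trans ?_ le_self_add
      rw [indicator_of_mem h1]
      exact indicator_le_self' (fun _ _ => zero_le_one) f
    · refine le_trans ?_ le_add_self
      by_cases h2 : f ∈ B
      · rw [indicator_of_mem h2]
        exact indicator_le_self' (fun _ _ => zero_le_one) f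
      · rw [indicator_of_notMem (fun h => h.elim h1 h2)]
        exact bot_le
  · exact ((measurable_one.indicator hA).mul hw).comp measurable_updateFinset

/-- FKG for the pinned field -/
theorem pin_fkg {o : G} {w : (G → ℝ) → ℝ≥0∞} (mw : Measurable w) (hw : LSM w) {A B : Set (G → ℝ)}
    (mA : MeasurableSet A) (mB : MeasurableSet B) (hA : Inc A) (hB : Inc B) :
    pin o w A * pin o w B ≤ pin o w (A ∩ B) * pin o w univ := by
  have := fkg mw hw mA mB hA hB (Finset.univ.erase o) 0
  have e : pin o w univ = (∫⋯∫⁻_(Finset.univ.erase o), w) 0 := by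
    unfold pin; simp
  rw [e]
  exact this

/-- symmetries of the index set that fix the pinned vertex -/
theorem pin_symm {o : G} {w : (G → ℝ) → ℝ≥0∞} (mw : Measurable w) {A B : Set (G → ℝ)}
    (mA : MeasurableSet A) (R : G ≃ G) (hR : R o = o) (hw : ∀ f, w (f ∘ R) = w f)
    (hAB : ∀ f, f ∘ R ∈ A ↔ f ∈ B) : pin o w B = pin o w A := by
  have key := lmarginal_image (μ := fun _ : G => (volume : Measure ℝ)) (e := R) R.injective
    (Finset.univ.erase o) (f := fun f => A.indicator 1 f * w f)
    ((measurable_one.indicator mA).mul mw) 0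
  have himg : (Finset.univ.erase o).image R = Finset.univ.erase o := by
    ext v
    simp only [Finset.mem_image, Finset.mem_erase, Finset.mem_univ, and_true, ne_eq]
    constructor
    · rintro ⟨a, ha, rfl⟩ h
      exact ha (R.injective (h.trans hR.symm))
    · intro hv
      refine ⟨R.symm v, fun h => hv ?_, R.apply_symm_apply v⟩
      rw [← R.apply_symm_apply v, h, hR]
  rw [himg] at key
  unfold pin
  have e : (fun f : G → ℝ => A.indicator (1 : (G → ℝ) → ℝ≥0∞) f * w f) ∘ (fun f => f ∘ R) =
      fun f => B.indicator (1 : (G → ℝ) → ℝ≥0∞) f * w f := by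
    ext f
    simp only [Function.comp_apply]
    rw [hw]
    congr 1
    by_cases hf : f ∈ B
    · rw [indicator_of_mem hf, indicator_of_mem ((hAB f).2 hf)]; rfl
    · rw [indicator_of_notMem hf, indicator_of_notMem (fun h => hf ((hAB f).1 h))]
  rw [← e]
  exact key

end general

end HMT
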