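import Pool.Agent.Lib_helper14.HMT.Coch

/-!
# Torus layer: lifted walks, windings, intersection lemma, lifts
-/

set_option autoImplicit false

namespace HMT

open Finset Relation

variable {M : ℕ} [NeZero M]

/-- nearest neighbours in `ℤ²` -/
def Adj (a b : ℤ × ℤ) : Prop :=
  b = a + (1, 0) ∨ a = b + (1, 0) ∨ b = a + (0, 1) ∨ a = b + (0, 1)

theorem Adj.symm {a b : ℤ × ℤ} (h : Adj a b) : Adj b a := by
  rcases h with h | h | h | h
  · exact Or.inr (Or.inl h)
  · exact Or.inl h
  · exact Or.inr (Or.inr (Or.inr h))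
  · exact Or.inr (Or.inr (Or.inl h))

/-- the projection `ℤ² → G` -/
def pr (M : ℕ) (p : ℤ × ℤ) : ZMod M × ZMod M := ((p.1 : ZMod M), (p.2 : ZMod M))

/-- one step of a lifted walk inside `S` -/
def Stp (S : Set (ZMod M × ZMod M)) (a b : ℤ × ℤ) : Prop := Adj a b ∧ pr M a ∈ S ∧ pr M b ∈ S

/-- lifted walks inside `S` -/
def Conn (S : Set (ZMod M × ZMod M)) : ℤ × ℤ → ℤ × ℤ → Prop := ReflTransGen (Stp S)

/-- `S` contains a closed walk with winding vector `u` -/
def Wind (S : Set (ZMod M × ZMod M)) (u : ℤ × ℤ) : Prop :=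
  ∃ p, pr M p ∈ S ∧ Conn S p (p + (M * u.1, M * u.2))

omit [NeZero M] in
theorem Stp.symm {S : Set (ZMod M × ZMod M)} {a b : ℤ × ℤ} (h : Stp S a b) : Stp S b a :=
  ⟨h.1.symm, h.2.2, h.2.1⟩

omit [NeZero M] in
theorem Conn.symm {S : Set (ZMod M × ZMod M)} {a b : ℤ × ℤ} (h : Conn S a b) : Conn S b a := by
  induction h with
  | refl => exact ReflTransGen.refl
  | tail _ h2 ih => exact ReflTransGen.head h2.symm ih

omit [NeZero M] in
theorem Conn.trans {S : Set (ZMod M × ZMod M)} {a b c : ℤ × ℤ} (h : Conn S a b) (h' : Conn S b c) :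
    Conn S a c := ReflTransGen.trans h h'

omit [NeZero M] in
theorem Conn.mono {S T : Set (ZMod M × ZMod M)} (hST : S ⊆ T) {a b : ℤ × ℤ} (h : Conn S a b) :
    Conn T a b := by
  induction h with
  | refl => exact ReflTransGen.refl
  | tail _ h2 ih => exact ReflTransGen.tail ih ⟨h2.1, hST h2.2.1, hST h2.2.2⟩

omit [NeZero M] in
theorem Wind.mono {S T : Set (ZMod M × ZMod M)} (hST : S ⊆ T) {u : ℤ × ℤ} (h : Wind S u) :
    Wind T u := by
  obtain ⟨p, h1, h2⟩ := h
  exact ⟨p, hST h1, h2.mono hST⟩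

omit [NeZero M] in
theorem pr_e1 (a : ℤ × ℤ) : pr M (a + (1, 0)) = pr M a + e1 M := by ext <;> simp [pr]

omit [NeZero M] in
theorem pr_e2 (a : ℤ × ℤ) : pr M (a + (0, 1)) = pr M a + e2 M := by ext <;> simp [pr]

omit [NeZero M] in
theorem pr_shift (a u : ℤ × ℤ) : pr M (a + (M * u.1, M * u.2)) = pr M a := by ext <;> simp [pr]

omit [NeZero M] in
theorem pr_eq {a b : ℤ × ℤ} (h : pr M a = pr M b) : ∃ u : ℤ × ℤ, b = a + (M * u.1, M * u.2) := by
  have h1 : ((a.1 : ℤ) : ZMod M) = b.1 := congrArg Prod.fst h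
  have h2 : ((a.2 : ℤ) : ZMod M) = b.2 := congrArg Prod.snd h
  rw [ZMod.intCast_eq_intCast_iff_dvd_sub] at h1 h2
  obtain ⟨x, hx⟩ := h1
  obtain ⟨y, hy⟩ := h2
  exact ⟨(x, y), by ext <;> simp <;> linarith⟩

omit [NeZero M] in
theorem Adj.shift {a b : ℤ × ℤ} (c : ℤ × ℤ) (h : Adj a b) : Adj (a + c) (b + c) := by
  rcases h with h | h | h | h <;> rw [h] <;> simp only [Adj]
  · left; abel
  · right; left; abel
  · right; right; left; abel
  · right; right; right; abel

omit [NeZero M] in
theorem Conn.shift {S : Set (ZMod M × ZMod M)} {a b : ℤ × ℤ} (u : ℤ × ℤ) (h : Conn S a b) :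
    Conn S (a + (M * u.1, M * u.2)) (b + (M * u.1, M * u.2)) := by
  induction h with
  | refl => exact ReflTransGen.refl
  | tail _ h2 ih =>
    refine ReflTransGen.tail ih ⟨h2.1.shift _, ?_, ?_⟩
    · rw [pr_shift]; exact h2.2.1
    · rw [pr_shift]; exact h2.2.2

omit [NeZero M] in
theorem Conn.mem {S : Set (ZMod M × ZMod M)} {a b : ℤ × ℤ} (h : Conn S a b) (ha : pr M a ∈ S) :
    pr M b ∈ S := by
  induction h with
  | refl => exact ha
  | tail _ h2 _ => exact h2.2.2

/-- the cluster of the lifted point `p` -/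
def Clu (S : Set (ZMod M × ZMod M)) (p : ℤ × ℤ) : Set (ZMod M × ZMod M) :=
  {v | ∃ q, Conn S p q ∧ pr M q = v}

omit [NeZero M] in
theorem Conn.inClu {S : Set (ZMod M × ZMod M)} {p q : ℤ × ℤ} (h : Conn S p q) :
    Conn (Clu S p) p q := by
  induction h with
  | refl => exact ReflTransGen.refl
  | tail h1 h2 ih => exact ReflTransGen.tail ih ⟨h2.1, ⟨_, h1, rfl⟩, ⟨_, h1.tail h2, rfl⟩⟩

omit [NeZero M] in
theorem clu_sub {S : Set (ZMod M × ZMod M)} {p : ℤ × ℤ} (hp : pr M p ∈ S) : Clu S p ⊆ S := by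
  rintro v ⟨q, hq, rfl⟩
  exact hq.mem hp

/-- **Pairing**: a closed cochain that vanishes on the edges inside `S` kills the windings of `S`. -/
theorem pair {h k : ZMod M × ZMod M → ℤ} (hw : Closed h k) {S : Set (ZMod M × ZMod M)}
    (h1 : ∀ v, v ∈ S → v + e1 M ∈ S → h v = 0) (h2 : ∀ v, v ∈ S → v + e2 M ∈ S → k v = 0)
    {u : ℤ × ℤ} (hu : Wind S u) : u.1 * ∑ v, h v + u.2 * ∑ v, k v = 0 := by
  obtain ⟨φ, ha, hb⟩ := exact h k hw
  obtain ⟨p, hp, hc⟩ := hu
  set H := ∑ v, h v
  set K := ∑ v, k v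
  have key : ∀ q, Conn S p q →
      φ (pr M q) + H * q.1 + K * q.2 = φ (pr M p) + H * p.1 + K * p.2 := by
    intro q hq
    induction hq with
    | refl => rfl
    | @tail b c _ hbc ih =>
      rw [← ih]
      obtain ⟨hadj, hb', hc'⟩ := hbc
      rcases hadj with e | e | e | e
      · subst e
        rw [pr_e1] at hc' ⊢
        have := ha (pr M b)
        rw [h1 _ hb' hc'] at this
        simp only [Prod.fst_add, Prod.snd_add]
        linear_combination this
      · subst e
        rw [pr_e1] at hb' ⊢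
        have := ha (pr M c)
        rw [h1 _ hc' hb'] at this
        simp only [Prod.fst_add, Prod.snd_add]
        linear_combination -this
      · subst e
        rw [pr_e2] at hc' ⊢
        have := hb (pr M b)
        rw [h2 _ hb' hc'] at this
        simp only [Prod.fst_add, Prod.snd_add]
        linear_combination this
      · subst e
        rw [pr_e2] at hb' ⊢
        have := hb (pr M c)
        rw [h2 _ hc' hb'] at this
        simp only [Prod.fst_add, Prod.snd_add]
        linear_combination -this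
  have := key _ hc
  rw [pr_shift] at this
  simp only [Prod.fst_add, Prod.snd_add] at this
  have hM : (M : ℤ) ≠ 0 := Int.natCast_ne_zero.2 (NeZero.ne M)
  have h3 : (M : ℤ) * (u.1 * H + u.2 * K) = 0 := by linear_combination this
  exact (mul_eq_zero.1 h3).resolve_left hM

open Classical in
/-- the flow of a lifted walk -/
theorem flow {S : Set (ZMod M × ZMod M)} {p q : ℤ × ℤ} (hpq : Conn S p q) :
    ∃ Jh Jv : ZMod M × ZMod M → ℤ,
      (∀ v, Jh v ≠ 0 → v ∈ S ∧ v + e1 M ∈ S) ∧ (∀ v, Jv v ≠ 0 → v ∈ S ∧ v + e2 M ∈ S) ∧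
      (∀ v, Jh v - Jh (v - e1 M) + Jv v - Jv (v - e2 M) =
        (if v = pr M p then 1 else 0) - (if v = pr M q then 1 else 0)) ∧
      ∑ v, Jh v = q.1 - p.1 ∧ ∑ v, Jv v = q.2 - p.2 := by
  induction hpq with
  | refl => exact ⟨0, 0, by simp, by simp, by simp, by simp, by simp⟩
  | @tail b c _ hbc ih =>
    obtain ⟨Jh, Jv, i1, i2, i3, i4, i5⟩ := ih
    obtain ⟨hadj, hb', hc'⟩ := hbc
    rcases hadj with e | e | e | e
    · subst e
      refine ⟨fun v => Jh v + (if v = pr M b then 1 else 0), Jv, fun v hv => ?_, i2, fun v => ?_, ?_, ?_⟩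
      · by_cases h : v = pr M b
        · subst h; rw [pr_e1] at hc'; exact ⟨hb', hc'⟩
        · simp only [h, if_false, add_zero] at hv; exact i1 v hv
      · have := i3 v
        rw [pr_e1]
        have e : (v - e1 M = pr M b) ↔ (v = pr M b + e1 M) := sub_eq_iff_eq_add
        simp only [e]
        linarith
      · rw [sum_add_distrib, i4]; simp; ring
      · rw [i5]; simp
    · subst e
      refine ⟨fun v => Jh v - (if v = pr M c then 1 else 0), Jv, fun v hv => ?_, i2, fun v => ?_, ?_, ?_⟩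
      · by_cases h : v = pr M c
        · subst h; rw [pr_e1] at hb'; exact ⟨hc', hb'⟩
        · simp only [h, if_false, sub_zero] at hv; exact i1 v hv
      · have := i3 v
        rw [pr_e1] at this
        have e : (v - e1 M = pr M c) ↔ (v = pr M c + e1 M) := sub_eq_iff_eq_add
        simp only [e]
        linarith
      · rw [sum_sub_distrib, i4]; simp; ring
      · rw [i5]; simp
    · subst e
      refine ⟨Jh, fun v => Jv v + (if v = pr M b then 1 else 0), i1, fun v hv => ?_, fun v => ?_, ?_, ?_⟩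
      · by_cases h : v = pr M b
        · subst h; rw [pr_e2] at hc'; exact ⟨hb', hc'⟩
        · simp only [h, if_false, add_zero] at hv; exact i2 v hv
      · have := i3 v
        rw [pr_e2]
        have e : (v - e2 M = pr M b) ↔ (v = pr M b + e2 M) := sub_eq_iff_eq_add
        simp only [e]
        linarith
      · rw [i4]; simp
      · rw [sum_add_distrib, i5]; simp; ring
    · subst e
      refine ⟨Jh, fun v => Jv v - (if v = pr M c then 1 else 0), i1, fun v hv => ?_, fun v => ?_, ?_, ?_⟩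
      · by_cases h : v = pr M c
        · subst h; rw [pr_e2] at hb'; exact ⟨hc', hb'⟩
        · simp only [h, if_false, sub_zero] at hv; exact i2 v hv
      · have := i3 v
        rw [pr_e2] at this
        have e : (v - e2 M = pr M c) ↔ (v = pr M c + e2 M) := sub_eq_iff_eq_add
        simp only [e]
        linarith
      · rw [i4]; simp
      · rw [sum_sub_distrib, i5]; simp; ring

/-- **Intersection lemma**: closed walks without a common vertex have parallel windings. -/
theorem inter {S T : Set (ZMod M × ZMod M)} (hST : ∀ v, v ∈ S → v ∉ T) {u u' : ℤ × ℤ}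
    (hu : Wind S u) (hu' : Wind T u') : u.1 * u'.2 = u.2 * u'.1 := by
  obtain ⟨p, hp, hc⟩ := hu'
  obtain ⟨Jh, Jv, i1, i2, i3, i4, i5⟩ := flow hc
  have hw : Closed (fun v => Jv (v - e2 M)) (fun v => -Jh (v - e1 M)) := by
    intro v
    have := i3 v
    rw [pr_shift] at this
    simp only [add_sub_cancel_right]
    linarith
  have h1 : ∑ v, Jv (v - e2 M) = M * u'.2 := by
    have := sum_shift (fun v => Jv (v - e2 M)) (e2 M)
    simp only [add_sub_cancel_right] at this
    rw [← this, i5]
    simp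
  have h2 : ∑ v, -Jh (v - e1 M) = -(M * u'.1) := by
    have := sum_shift (fun v => Jh (v - e1 M)) (e1 M)
    simp only [add_sub_cancel_right] at this
    rw [sum_neg_distrib, ← this, i4]
    simp
  have h3 := pair hw (S := S) (fun v hv _ => by
      by_contra h
      have := (i2 _ h).2
      rw [sub_add_cancel] at this
      exact hST v hv this) (fun v hv _ => by
      by_contra h
      have := (i1 _ (neg_ne_zero.1 h)).2
      rw [sub_add_cancel] at this
      exact hST v hv this) hu
  rw [h1, h2] at h3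
  have hM : (M : ℤ) ≠ 0 := Int.natCast_ne_zero.2 (NeZero.ne M)
  have h4 : (M : ℤ) * (u.1 * u'.2 - u.2 * u'.1) = 0 := by linear_combination h3
  have := (mul_eq_zero.1 h4).resolve_left hM
  linarith

end HMT
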